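import Mathlib

open Finset Filter Topology

namespace Pool.Agent.Results.MP_573265_nt.AsymptoticConstant

/-- `A` is `k`-admissible: no member of `A` is a multiple of `k` other members of `A`,
that is, every `a ∈ A` has fewer than `k` divisors `b ≠ a` in `A`. -/
def IsAdmissible (k : ℕ) (A : Finset ℕ) : Prop :=
  ∀ a ∈ A, (A.filter (fun b => b ≠ a ∧ b ∣ a)).card < k

open Classical in
/-- The largest cardinality of a `k`-admissible subset of the finite set `S`. -/
noncomputable def maxAdm (k : ℕ) (S : Finset ℕ) : ℕ :=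
  (S.powerset.filter (IsAdmissible k)).sup Finset.card

/-- `F k n` is the largest cardinality of a `k`-admissible subset of `{1, …, n}`. -/
noncomputable def F (k n : ℕ) : ℕ := maxAdm k (Finset.Icc 1 n)

/-- `G k N x` is the largest cardinality of a `k`-admissible set of positive integers `≤ x`
all of whose prime factors are `< N`. -/
noncomputable def G (k N x : ℕ) : ℕ := maxAdm k (Nat.smoothNumbersUpTo x N)

/-- The explicit upper approximations of the constant:
`C k N = (∏_{p < N} (1 - 1/p)) * ∑_s (G k N s - G k N (s-1)) / s`. -/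
noncomputable def C (k N : ℕ) : ℝ :=
  (∏ p ∈ N.primesBelow, (1 - (p : ℝ)⁻¹)) *
    ∑' s : ℕ, ((G k N s : ℝ) - (G k N (s - 1) : ℝ)) / (s : ℝ)

/-! ### Basic facts on `maxAdm` -/

lemma IsAdmissible.subset {k : ℕ} {A B : Finset ℕ} (hA : IsAdmissible k A) (h : B ⊆ A) :
    IsAdmissible k B := by
  intro a ha
  exact lt_of_le_of_lt (Finset.card_le_card (Finset.filter_subset_filter _ h)) (hA a (h ha))

lemma le_maxAdm {k : ℕ} {A S : Finset ℕ} (h : A ⊆ S) (hA : IsAdmissible k A) :
    A.card ≤ maxAdm k S := by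
  classical
  unfold maxAdm
  exact Finset.le_sup (f := Finset.card) (by simp [h, hA])

lemma exists_maxAdm (k : ℕ) (S : Finset ℕ) :
    ∃ A, A ⊆ S ∧ IsAdmissible k A ∧ A.card = maxAdm k S := by
  classical
  have hne : (S.powerset.filter (IsAdmissible k)).Nonempty := by
    refine ⟨∅, ?_⟩
    simp [IsAdmissible]
  obtain ⟨A, hA, hc⟩ := Finset.exists_mem_eq_sup _ hne (Finset.card)
  rw [Finset.mem_filter, Finset.mem_powerset] at hA
  exact ⟨A, hA.1, hA.2, hc.symm⟩

lemma maxAdm_mono {k : ℕ} {S T : Finset ℕ} (h : S ⊆ T) : maxAdm k S ≤ maxAdm k T := by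
  obtain ⟨A, h1, h2, h3⟩ := exists_maxAdm k S
  rw [← h3]
  exact le_maxAdm (h1.trans h) h2

lemma maxAdm_insert_le {k : ℕ} {S : Finset ℕ} (x : ℕ) :
    maxAdm k (insert x S) ≤ maxAdm k S + 1 := by
  obtain ⟨A, h1, h2, h3⟩ := exists_maxAdm k (insert x S)
  rw [← h3]
  have h4 : (A.erase x).card ≤ maxAdm k S := by
    apply le_maxAdm
    · intro y hy
      rw [Finset.mem_erase] at hy
      have := h1 hy.2
      rw [Finset.mem_insert] at this
      tauto
    · exact h2.subset (Finset.erase_subset _ _)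
  have h5 : A.card ≤ (A.erase x).card + 1 := by
    have := Finset.pred_card_le_card_erase (a := x) (s := A)
    omega
  omega

/-! ### The jump function of `G` -/

lemma smoothUpTo_succ (N x : ℕ) :
    Nat.smoothNumbersUpTo (x + 1) N =
      if x + 1 ∈ Nat.smoothNumbers N then insert (x + 1) (Nat.smoothNumbersUpTo x N)
      else Nat.smoothNumbersUpTo x N := by
  split_ifs with h
  · ext y
    simp only [Nat.mem_smoothNumbersUpTo, Finset.mem_insert]
    constructor
    · rintro ⟨h1, h2⟩
      rcases Nat.lt_or_ge x y with h3 | h3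
      · left; omega
      · right; exact ⟨h3, h2⟩
    · rintro (h1 | ⟨h1, h2⟩)
      · subst h1; exact ⟨le_rfl, h⟩
      · exact ⟨by omega, h2⟩
  · ext y
    simp only [Nat.mem_smoothNumbersUpTo]
    constructor
    · rintro ⟨h1, h2⟩
      refine ⟨?_, h2⟩
      by_contra h3
      have : y = x + 1 := by omega
      subst this
      exact h h2
    · rintro ⟨h1, h2⟩
      exact ⟨by omega, h2⟩

/-- the jump of `G` at `s` -/
noncomputable def jump (k N s : ℕ) : ℝ := (G k N s : ℝ) - (G k N (s - 1) : ℝ)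

lemma jump_nonneg (k N s : ℕ) : 0 ≤ jump k N s := by
  unfold jump
  have : G k N (s - 1) ≤ G k N s := by
    apply maxAdm_mono
    intro y hy
    rw [Nat.mem_smoothNumbersUpTo] at hy ⊢
    exact ⟨by omega, hy.2⟩
  have h : (G k N (s - 1) : ℝ) ≤ (G k N s : ℝ) := by exact_mod_cast this
  linarith

lemma jump_zero (k N : ℕ) : jump k N 0 = 0 := by simp [jump]

lemma jump_of_not_smooth (k N s : ℕ) (hs : s ∉ Nat.smoothNumbers N) : jump k N s = 0 := by
  rcases s with _ | s
  · exact jump_zero k N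
  · unfold jump G
    rw [smoothUpTo_succ, if_neg hs]
    simp

lemma jump_le_one (k N s : ℕ) : jump k N s ≤ 1 := by
  rcases s with _ | s
  · simp [jump]
  · unfold jump
    have : G k N (s + 1) ≤ G k N s + 1 := by
      unfold G
      rw [smoothUpTo_succ]
      split_ifs
      · exact maxAdm_insert_le _
      · omega
    have h : (G k N (s + 1) : ℝ) ≤ (G k N s : ℝ) + 1 := by exact_mod_cast this
    simp only [Nat.add_sub_cancel]
    linarith

lemma G_zero (k N : ℕ) : G k N 0 = 0 := by
  obtain ⟨A, h1, -, h3⟩ := exists_maxAdm k (Nat.smoothNumbersUpTo 0 N)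
  unfold G
  rw [← h3, Finset.card_eq_zero]
  rw [Finset.eq_empty_iff_forall_notMem]
  intro x hx
  have := h1 hx
  rw [Nat.mem_smoothNumbersUpTo] at this
  have h0 : x = 0 := by omega
  subst h0
  exact (Nat.ne_zero_of_mem_smoothNumbers this.2) rfl

lemma G_eq_sum_jump (k N x : ℕ) : (G k N x : ℝ) = ∑ s ∈ Finset.Icc 1 x, jump k N s := by
  induction x with
  | zero => simp [G_zero]
  | succ x ih =>
    rw [Finset.sum_Icc_succ_top (by omega), ← ih]
    unfold jump
    simp

/-! ### Rough numbers -/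

/-- the product of the primes below `N` -/
def M (N : ℕ) : ℕ := ∏ p ∈ N.primesBelow, p

lemma M_pos (N : ℕ) : 0 < M N := by
  unfold M
  apply Finset.prod_pos
  intro p hp
  exact (Nat.prime_of_mem_primesBelow hp).pos

lemma prime_dvd_M {N p : ℕ} (hp : p.Prime) : p ∣ M N ↔ p < N := by
  unfold M
  constructor
  · intro h
    obtain ⟨q, hq, h2⟩ := (Prime.dvd_finsetProd_iff hp.prime _).1 h
    have hq' := Nat.prime_of_mem_primesBelow hq
    rw [Nat.prime_dvd_prime_iff_eq hp hq'] at h2
    subst h2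
    exact Nat.lt_of_mem_primesBelow hq
  · intro h
    exact Finset.dvd_prod_of_mem (fun p => p) (Nat.mem_primesBelow.2 ⟨h, hp⟩)

lemma primeFactors_M (N : ℕ) : (M N).primeFactors = N.primesBelow := by
  ext p
  rw [Nat.mem_primeFactors, Nat.mem_primesBelow]
  constructor
  · rintro ⟨h1, h2, -⟩
    exact ⟨(prime_dvd_M h1).1 h2, h1⟩
  · rintro ⟨h1, h2⟩
    exact ⟨h2, (prime_dvd_M h2).2 h1, (M_pos N).ne'⟩

lemma totient_div (N : ℕ) :
    ((M N).totient : ℝ) / (M N : ℝ) = ∏ p ∈ N.primesBelow, (1 - (p : ℝ)⁻¹) := by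
  have h := Nat.totient_eq_mul_prod_factors (M N)
  have h2 : ((M N).totient : ℝ) = (M N : ℝ) * ∏ p ∈ (M N).primeFactors, (1 - (p : ℝ)⁻¹) := by
    have h3 := congrArg (fun q : ℚ => (q : ℝ)) h
    push_cast at h3
    exact h3
  rw [h2, primeFactors_M]
  have : (M N : ℝ) ≠ 0 := by exact_mod_cast (M_pos N).ne'
  field_simp

/-- number of `t ∈ [1,x]` coprime to `M N` -/
def R (N x : ℕ) : ℕ := ((Finset.Icc 1 x).filter (fun t => (M N).Coprime t)).card

lemma R_le (N x : ℕ) : R N x ≤ x := by
  unfold R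
  calc _ ≤ (Finset.Icc 1 x).card := Finset.card_filter_le _ _
    _ = x := by simp

lemma R_mono (N : ℕ) {x y : ℕ} (h : x ≤ y) : R N x ≤ R N y := by
  unfold R
  apply Finset.card_le_card
  apply Finset.filter_subset_filter
  exact Finset.Icc_subset_Icc_right h

lemma R_add_M (N x : ℕ) : R N (x + M N) = R N x + (M N).totient := by
  unfold R
  have h1 : Finset.Icc 1 (x + M N) = Finset.Icc 1 x ∪ Finset.Ico (x + 1) (x + 1 + M N) := by
    ext y
    simp only [Finset.mem_Icc, Finset.mem_union, Finset.mem_Ico]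
    omega
  rw [h1, Finset.filter_union, Finset.card_union_of_disjoint, Nat.filter_coprime_Ico_eq_totient]
  apply Finset.disjoint_filter_filter
  rw [Finset.disjoint_left]
  intro y hy hy2
  simp only [Finset.mem_Icc, Finset.mem_Ico] at hy hy2
  omega

lemma R_mul_M (N q : ℕ) : R N (q * M N) = q * (M N).totient := by
  induction q with
  | zero => simp [R]
  | succ q ih =>
    rw [Nat.add_mul, Nat.one_mul, R_add_M, ih]
    ring

lemma R_bounds (N x : ℕ) :
    |(R N x : ℝ) - (x : ℝ) * (((M N).totient : ℝ) / (M N : ℝ))| ≤ (M N).totient := by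
  set m := M N with hm
  have hmpos : 0 < m := M_pos N
  have hmR : (0 : ℝ) < m := by exact_mod_cast hmpos
  set q := x / m with hq
  have h1 : q * m ≤ x := Nat.div_mul_le_self x m
  have h2 : x ≤ (q + 1) * m := by
    have := Nat.lt_div_mul_add (a := x) hmpos
    rw [← hq] at this
    nlinarith
  have h3 : q * m.totient ≤ R N x := by
    rw [hm, ← R_mul_M]; exact R_mono N h1
  have h4 : R N x ≤ (q + 1) * m.totient := by
    rw [hm, ← R_mul_M]; exact R_mono N h2
  have h1' : (q : ℝ) * m ≤ x := by exact_mod_cast h1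
  have h2' : (x : ℝ) ≤ (q + 1) * m := by exact_mod_cast h2
  have h3' : (q : ℝ) * m.totient ≤ R N x := by exact_mod_cast h3
  have h4' : (R N x : ℝ) ≤ (q + 1) * m.totient := by exact_mod_cast h4
  have ht : (0 : ℝ) ≤ m.totient := by positivity
  have h5 : (q : ℝ) * m.totient ≤ x * ((m.totient : ℝ) / m) := by
    have : (q : ℝ) * m.totient = (q * m) * ((m.totient : ℝ) / m) := by field_simp
    rw [this]
    gcongr
  have h6 : x * ((m.totient : ℝ) / m) ≤ ((q : ℝ) + 1) * m.totient := by
    have : ((q : ℝ) + 1) * m.totient = ((q + 1) * m) * ((m.totient : ℝ) / m) := by field_simp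
    rw [this]
    gcongr
  rw [abs_le]
  constructor <;> nlinarith

/-! ### Decomposition into smooth and rough part -/

lemma coprime_smooth_rough {N s t : ℕ} (hs : s ∈ Nat.smoothNumbers N) (ht : (M N).Coprime t) :
    s.Coprime t := by
  rw [Nat.coprime_iff_gcd_eq_one]
  by_contra h
  obtain ⟨p, hp, hpd⟩ := Nat.exists_prime_and_dvd h
  have h1 : p ∣ s := hpd.trans (Nat.gcd_dvd_left _ _)
  have h2 : p ∣ t := hpd.trans (Nat.gcd_dvd_right _ _)
  have h3 : p < N := Nat.mem_smoothNumbers'.1 hs p hp h1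
  have h4 : p ∣ M N := (prime_dvd_M hp).2 h3
  have h5 : p ∣ 1 := by
    rw [← Nat.coprime_iff_gcd_eq_one.1 ht]
    exact Nat.dvd_gcd h4 h2
  exact hp.one_lt.ne' (Nat.dvd_one.1 h5)

lemma decomp_unique {N s t s' t' : ℕ} (hs : s ∈ Nat.smoothNumbers N)
    (hs' : s' ∈ Nat.smoothNumbers N) (ht : (M N).Coprime t) (ht' : (M N).Coprime t')
    (h : s * t = s' * t') : s = s' ∧ t = t' := by
  have h1 : s ∣ s' := (coprime_smooth_rough hs ht').dvd_of_dvd_mul_right (h ▸ Dvd.intro _ rfl)
  have h2 : s' ∣ s := (coprime_smooth_rough hs' ht).dvd_of_dvd_mul_right (h ▸ Dvd.intro _ rfl)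
  have h3 : s = s' := Nat.dvd_antisymm h1 h2
  subst h3
  exact ⟨rfl, Nat.eq_of_mul_eq_mul_left (Nat.pos_of_ne_zero (Nat.ne_zero_of_mem_smoothNumbers hs)) h⟩

lemma one_mem_smooth (N : ℕ) : 1 ∈ Nat.smoothNumbers N := by
  rw [Nat.mem_smoothNumbers']
  intro p hp h
  exact absurd (Nat.dvd_one.1 h) hp.one_lt.ne'

lemma decomp_exists (N : ℕ) {a : ℕ} (ha : a ≠ 0) :
    ∃ s t, s ∈ Nat.smoothNumbers N ∧ (M N).Coprime t ∧ a = s * t := by
  induction a using Nat.recOnMul with
  | zero => exact absurd rfl ha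
  | one => exact ⟨1, 1, one_mem_smooth N, by simp, by simp⟩
  | prime p hp =>
    by_cases h : p < N
    · refine ⟨p, 1, ?_, by simp, by simp⟩
      rw [Nat.mem_smoothNumbers']
      intro q hq hqp
      rw [(Nat.prime_dvd_prime_iff_eq hq hp).1 hqp]
      exact h
    · refine ⟨1, p, one_mem_smooth N, ?_, by simp⟩
      rw [Nat.coprime_comm, Nat.Prime.coprime_iff_not_dvd hp, prime_dvd_M hp]
      exact h
  | mul a b iha ihb =>
    obtain ⟨s, t, h1, h2, h3⟩ := iha (left_ne_zero_of_mul ha)
    obtain ⟨s', t', h1', h2', h3'⟩ := ihb (right_ne_zero_of_mul ha)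
    refine ⟨s * s', t * t', Nat.mul_mem_smoothNumbers h1 h1', Nat.Coprime.mul_right h2 h2', ?_⟩
    rw [h3, h3']; ring

/-- the rough numbers up to `n` -/
def T (N n : ℕ) : Finset ℕ := (Finset.Icc 1 n).filter (fun t => (M N).Coprime t)

/-- the main sum -/
noncomputable def W (k N n : ℕ) : ℕ := ∑ t ∈ T N n, G k N (n / t)

lemma F_le_W (k N n : ℕ) : F k n ≤ W k N n := by
  obtain ⟨A, h1, h2, h3⟩ := exists_maxAdm k (Finset.Icc 1 n)
  unfold F
  rw [← h3]
  set B : ℕ → Finset ℕ := fun t => (Nat.smoothNumbersUpTo (n / t) N).filter (fun s => s * t ∈ A)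
    with hB
  have hsub : A ⊆ (T N n).biUnion (fun t => (B t).image (fun s => s * t)) := by
    intro a ha
    have han := h1 ha
    rw [Finset.mem_Icc] at han
    obtain ⟨s, t, hs, ht, hst⟩ := decomp_exists N (a := a) (by omega)
    have hs0 : 0 < s := Nat.pos_of_ne_zero (Nat.ne_zero_of_mem_smoothNumbers hs)
    have ht0 : 0 < t := by
      rcases Nat.eq_zero_or_pos t with h | h
      · subst h; simp at hst; omega
      · exact h
    rw [Finset.mem_biUnion]
    refine ⟨t, ?_, ?_⟩
    · unfold T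
      rw [Finset.mem_filter, Finset.mem_Icc]
      refine ⟨⟨ht0, ?_⟩, ht⟩
      calc t ≤ s * t := Nat.le_mul_of_pos_left t hs0
        _ = a := hst.symm
        _ ≤ n := han.2
    · rw [Finset.mem_image]
      refine ⟨s, ?_, hst.symm⟩
      rw [hB]
      simp only [Finset.mem_filter, Nat.mem_smoothNumbersUpTo]
      refine ⟨⟨?_, hs⟩, hst ▸ ha⟩
      rw [Nat.le_div_iff_mul_le ht0, ← hst]
      exact han.2
  calc A.card ≤ ((T N n).biUnion (fun t => (B t).image (fun s => s * t))).card :=
        Finset.card_le_card hsub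
    _ ≤ ∑ t ∈ T N n, ((B t).image (fun s => s * t)).card := Finset.card_biUnion_le
    _ ≤ ∑ t ∈ T N n, (B t).card := Finset.sum_le_sum (fun t _ => Finset.card_image_le)
    _ ≤ W k N n := by
      unfold W
      apply Finset.sum_le_sum
      intro t ht
      have ht0 : 0 < t := by
        unfold T at ht
        rw [Finset.mem_filter, Finset.mem_Icc] at ht
        exact ht.1.1
      apply le_maxAdm (Finset.filter_subset _ _)
      intro a ha
      have haA : a * t ∈ A := (Finset.mem_filter.1 ha).2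
      refine lt_of_le_of_lt ?_ (h2 (a * t) haA)
      have hinj : Function.Injective (fun s : ℕ => s * t) := by
        intro x y hxy
        exact Nat.eq_of_mul_eq_mul_right ht0 hxy
      rw [← Finset.card_image_of_injective _ hinj]
      apply Finset.card_le_card
      intro b hb
      rw [Finset.mem_image] at hb
      obtain ⟨c, hc, rfl⟩ := hb
      rw [Finset.mem_filter] at hc ⊢
      have hcB := (Finset.mem_filter.1 hc.1).2
      refine ⟨hcB, ?_, Nat.mul_dvd_mul_right hc.2.2 t⟩
      intro h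
      exact hc.2.1 (hinj h)

lemma W_le_F (k N n : ℕ) (hN : 0 < N) : W k N n ≤ F k n + n / N := by
  choose B hB1 hB2 hB3 using fun t => exists_maxAdm k (Nat.smoothNumbersUpTo (n / t) N)
  set A' : Finset ℕ := (T N n).biUnion (fun t => (B t).image (fun s => s * t)) with hA'
  have hTpos : ∀ t ∈ T N n, 0 < t ∧ (M N).Coprime t := by
    intro t ht
    unfold T at ht
    rw [Finset.mem_filter, Finset.mem_Icc] at ht
    exact ⟨ht.1.1, ht.2⟩
  have hBs : ∀ t, ∀ s ∈ B t, s ∈ Nat.smoothNumbers N ∧ s ≤ n / t := by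
    intro t s hs
    have := hB1 t hs
    rw [Nat.mem_smoothNumbersUpTo] at this
    exact ⟨this.2, this.1⟩
  have hcard : A'.card = W k N n := by
    rw [hA', Finset.card_biUnion]
    · unfold W
      apply Finset.sum_congr rfl
      intro t ht
      rw [Finset.card_image_of_injective]
      · exact hB3 t
      · intro x y hxy
        exact Nat.eq_of_mul_eq_mul_right (hTpos t ht).1 hxy
    · intro t ht t' ht' htt'
      show Disjoint ((B t).image (fun s => s * t)) ((B t').image (fun s => s * t'))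
      rw [Finset.disjoint_left]
      intro x hx hx'
      rw [Finset.mem_image] at hx hx'
      obtain ⟨s, hs, hsx⟩ := hx
      obtain ⟨s', hs', hsx'⟩ := hx'
      apply htt'
      exact (decomp_unique (hBs t s hs).1 (hBs t' s' hs').1 (hTpos t ht).2 (hTpos t' ht').2
        (hsx.trans hsx'.symm)).2
  set A : Finset ℕ := A'.filter (fun a => n < a * N) with hA
  have hAle : ∀ a ∈ A', 1 ≤ a ∧ a ≤ n := by
    intro a ha
    rw [hA', Finset.mem_biUnion] at ha
    obtain ⟨t, ht, ha⟩ := ha
    rw [Finset.mem_image] at ha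
    obtain ⟨s, hs, rfl⟩ := ha
    obtain ⟨h1, h2⟩ := hBs t s hs
    have ht0 := (hTpos t ht).1
    constructor
    · exact Nat.mul_pos (Nat.pos_of_ne_zero (Nat.ne_zero_of_mem_smoothNumbers h1)) ht0
    · exact (Nat.le_div_iff_mul_le ht0).1 h2
  have hadm : IsAdmissible k A := by
    intro a ha
    rw [hA, Finset.mem_filter] at ha
    have ha' := ha.1
    rw [hA', Finset.mem_biUnion] at ha'
    obtain ⟨t, ht, ha'⟩ := ha'
    rw [Finset.mem_image] at ha'
    obtain ⟨s, hs, rfl⟩ := ha'
    obtain ⟨ht0, htc⟩ := hTpos t ht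
    refine lt_of_le_of_lt ?_ (hB2 t s hs)
    have hinj : Function.Injective (fun s : ℕ => s * t) := by
      intro x y hxy
      exact Nat.eq_of_mul_eq_mul_right ht0 hxy
    rw [← Finset.card_image_of_injective ((B t).filter (fun b => b ≠ s ∧ b ∣ s)) hinj]
    apply Finset.card_le_card
    intro b hb
    rw [Finset.mem_filter] at hb
    obtain ⟨hbA, hbne, hbd⟩ := hb
    rw [hA, Finset.mem_filter] at hbA
    obtain ⟨hbA', hbN⟩ := hbA
    rw [hA', Finset.mem_biUnion] at hbA'
    obtain ⟨t', ht', hb'⟩ := hbA'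
    rw [Finset.mem_image] at hb'
    obtain ⟨s', hs', rfl⟩ := hb'
    obtain ⟨ht0', htc'⟩ := hTpos t' ht'
    obtain ⟨q, hq⟩ := hbd
    -- `q < N`
    have hqN : q < N := by
      have hle : s' * t' * q ≤ n := by rw [← hq]; exact (hAle _ ha.1).2
      by_contra hcon
      rw [not_lt] at hcon
      have : s' * t' * N ≤ s' * t' * q := Nat.mul_le_mul_left _ hcon
      omega
    have hq0 : 0 < q := by
      rcases Nat.eq_zero_or_pos q with h | h
      · exfalso
        rw [h, Nat.mul_zero] at hq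
        have := (hAle _ ha.1).1
        omega
      · exact h
    have hqs : q ∈ Nat.smoothNumbers N := Nat.mem_smoothNumbers_of_lt hq0 hqN
    have hss : s' * q ∈ Nat.smoothNumbers N := Nat.mul_mem_smoothNumbers (hBs t' s' hs').1 hqs
    have heq : s * t = (s' * q) * t' := by rw [hq]; ring
    obtain ⟨h1, h2⟩ := decomp_unique (hBs t s hs).1 hss htc htc' heq
    subst h2
    rw [Finset.mem_image]
    refine ⟨s', ?_, rfl⟩
    rw [Finset.mem_filter]
    refine ⟨hs', ?_, ?_⟩
    · intro h
      apply hbne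
      rw [h]
    · rw [h1]; exact Dvd.intro _ rfl
  have hAcard : A.card ≤ F k n := by
    apply le_maxAdm _ hadm
    intro a ha
    rw [hA, Finset.mem_filter] at ha
    rw [Finset.mem_Icc]
    exact hAle a ha.1
  have hrest : (A'.filter (fun a => ¬ n < a * N)).card ≤ n / N := by
    calc (A'.filter (fun a => ¬ n < a * N)).card ≤ (Finset.Icc 1 (n / N)).card := by
          apply Finset.card_le_card
          intro a ha
          rw [Finset.mem_filter] at ha
          rw [Finset.mem_Icc]
          refine ⟨(hAle a ha.1).1, ?_⟩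
          rw [Nat.le_div_iff_mul_le hN]
          omega
      _ = n / N := by simp
  have hsplit := Finset.card_filter_add_card_filter_not (s := A') (fun a => n < a * N)
  rw [← hA, hcard] at hsplit
  omega

/-! ### The analytic part -/

lemma W_eq (k N n : ℕ) :
    (W k N n : ℝ) = ∑ s ∈ Finset.Icc 1 n, jump k N s * (R N (n / s) : ℝ) := by
  unfold W
  push_cast
  have h1 : ∀ t ∈ T N n, (G k N (n / t) : ℝ) =
      ∑ s ∈ Finset.Icc 1 n, if s * t ≤ n then jump k N s else 0 := by
    intro t ht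
    unfold T at ht
    rw [Finset.mem_filter, Finset.mem_Icc] at ht
    rw [G_eq_sum_jump, ← Finset.sum_filter]
    apply Finset.sum_congr _ (fun _ _ => rfl)
    ext s
    simp only [Finset.mem_Icc, Finset.mem_filter]
    rw [Nat.le_div_iff_mul_le ht.1.1]
    constructor
    · rintro ⟨h1, h2⟩
      refine ⟨⟨h1, ?_⟩, h2⟩
      exact le_trans (Nat.le_mul_of_pos_right s ht.1.1) h2
    · rintro ⟨⟨h1, -⟩, h2⟩
      exact ⟨h1, h2⟩
  rw [Finset.sum_congr rfl h1, Finset.sum_comm]
  apply Finset.sum_congr rfl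
  intro s hs
  rw [Finset.mem_Icc] at hs
  rw [← Finset.sum_filter, Finset.sum_const, nsmul_eq_mul, mul_comm]
  congr 2
  unfold R T
  congr 1
  ext t
  simp only [Finset.mem_Icc, Finset.mem_filter]
  rw [Nat.le_div_iff_mul_le (by omega : 0 < s)]
  constructor
  · rintro ⟨⟨⟨h1, h2⟩, h3⟩, h4⟩
    exact ⟨⟨h1, by rw [mul_comm]; exact h4⟩, h3⟩
  · rintro ⟨⟨h1, h2⟩, h3⟩
    refine ⟨⟨⟨h1, ?_⟩, h3⟩, by rw [mul_comm]; exact h2⟩
    exact le_trans (Nat.le_mul_of_pos_right t (by omega)) h2

lemma summable_jump (k N : ℕ) : Summable (fun s : ℕ => jump k N s / (s : ℝ)) := by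
  have h1 : Summable (fun m : N.smoothNumbers => ‖((m : ℕ) : ℝ)⁻¹‖) := by
    let f : ℕ →* ℝ :=
      { toFun := fun n => (n : ℝ)⁻¹
        map_one' := by simp
        map_mul' := by intro a b; push_cast; rw [mul_inv] }
    have hf : ∀ {p : ℕ}, p.Prime → ‖f p‖ < 1 := by
      intro p hp
      show ‖(p : ℝ)⁻¹‖ < 1
      rw [norm_inv, Real.norm_natCast]
      exact inv_lt_one_of_one_lt₀ (by exact_mod_cast hp.one_lt)
    exact (EulerProduct.summable_and_hasSum_smoothNumbers_prod_primesBelow_geometric hf N).1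
  have h2 : Summable (Set.indicator (N.smoothNumbers) (fun m : ℕ => ‖((m : ℕ) : ℝ)⁻¹‖)) := by
    rw [← summable_subtype_iff_indicator]
    exact h1
  refine Summable.of_nonneg_of_le (fun s => ?_) (fun s => ?_) h2
  · exact div_nonneg (jump_nonneg k N s) (Nat.cast_nonneg s)
  · by_cases hs : s ∈ N.smoothNumbers
    · rw [Set.indicator_of_mem hs, norm_inv, Real.norm_natCast, div_eq_mul_inv]
      exact mul_le_of_le_one_left (by positivity) (jump_le_one k N s)
    · rw [Set.indicator_of_notMem hs, jump_of_not_smooth k N s hs]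
      simp

lemma tendsto_R (N s : ℕ) (hs : 0 < s) :
    Tendsto (fun n : ℕ => (R N (n / s) : ℝ) / (n : ℝ)) atTop
      (𝓝 ((((M N).totient : ℝ) / (M N : ℝ)) / (s : ℝ))) := by
  set φ : ℝ := ((M N).totient : ℝ) / (M N : ℝ) with hφ
  have hφ0 : 0 ≤ φ := by positivity
  have hφ1 : φ ≤ 1 := by
    rw [hφ]
    apply div_le_one_of_le₀
    · exact_mod_cast Nat.totient_le _
    · positivity
  set K : ℝ := (M N).totient + 1 with hK
  have hs' : (0 : ℝ) < s := by exact_mod_cast hs
  have hb : ∀ n : ℕ, 1 ≤ n → |(R N (n / s) : ℝ) / n - φ / s| ≤ K / n := by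
    intro n hn
    have hn' : (0 : ℝ) < n := by exact_mod_cast hn
    set x := n / s with hx
    have h1 := R_bounds N x
    rw [← hφ] at h1
    have h2 : (x : ℝ) * s ≤ n := by exact_mod_cast Nat.div_mul_le_self n s
    have h3 : (n : ℝ) ≤ (x + 1) * s := by
      have := Nat.lt_div_mul_add (a := n) hs
      have h4 : n ≤ (x + 1) * s := by rw [hx]; nlinarith
      exact_mod_cast h4
    have h4 : (x : ℝ) ≤ n / s := by rw [le_div_iff₀ hs']; exact h2
    have h5 : (n : ℝ) / s ≤ x + 1 := by rw [div_le_iff₀ hs']; exact h3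
    have h6 : |(R N x : ℝ) - φ * (n / s)| ≤ K := by
      rw [abs_le] at h1 ⊢
      have h7 : φ * x ≤ φ * (n / s) := by gcongr
      have h8 : φ * (n / s) ≤ φ * (x + 1) := by gcongr
      constructor <;> nlinarith
    have h9 : (R N x : ℝ) / n - φ / s = ((R N x : ℝ) - φ * (n / s)) / n := by
      field_simp
    rw [h9, abs_div, abs_of_pos hn']
    gcongr
  have hlim : Tendsto (fun n : ℕ => K / (n : ℝ)) atTop (𝓝 0) :=
    tendsto_const_div_atTop_nhds_zero_nat K
  rw [tendsto_iff_norm_sub_tendsto_zero]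
  refine squeeze_zero' (Filter.Eventually.of_forall (fun n => norm_nonneg _)) ?_ hlim
  filter_upwards [Filter.eventually_ge_atTop 1] with n hn
  rw [Real.norm_eq_abs]
  exact hb n hn

lemma tendsto_W (k N : ℕ) :
    Tendsto (fun n : ℕ => (W k N n : ℝ) / (n : ℝ)) atTop (𝓝 (C k N)) := by
  set φ : ℝ := ((M N).totient : ℝ) / (M N : ℝ) with hφ
  have hC : C k N = ∑' s : ℕ, jump k N s * (φ / s) := by
    unfold C
    rw [← totient_div, ← hφ, ← tsum_mul_left]
    apply tsum_congr
    intro s
    unfold jump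
    ring
  have hW : ∀ n : ℕ, (W k N n : ℝ) / (n : ℝ) =
      ∑' s : ℕ, if s ∈ Finset.Icc 1 n then jump k N s * ((R N (n / s) : ℝ) / n) else 0 := by
    intro n
    rw [W_eq, Finset.sum_div, tsum_eq_sum (s := Finset.Icc 1 n)]
    · apply Finset.sum_congr rfl
      intro s hs
      rw [if_pos hs, mul_div_assoc]
    · intro s hs
      rw [if_neg hs]
  rw [hC]
  simp_rw [hW]
  apply tendsto_tsum_of_dominated_convergence (bound := fun s => jump k N s / (s : ℝ))
    (summable_jump k N)
  · intro s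
    rcases Nat.eq_zero_or_pos s with h0 | hs
    · subst h0
      simp [jump_zero]
    · have h1 := (tendsto_R N s hs).const_mul (jump k N s)
      rw [← hφ] at h1
      refine h1.congr' ?_
      filter_upwards [Filter.eventually_ge_atTop s] with n hn
      rw [if_pos (Finset.mem_Icc.2 ⟨hs, hn⟩)]
  · filter_upwards [Filter.eventually_ge_atTop 1] with n hn s
    split_ifs with h
    · rw [Finset.mem_Icc] at h
      have hn' : (0 : ℝ) < n := by exact_mod_cast hn
      have hs' : (0 : ℝ) < s := by exact_mod_cast h.1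
      rw [Real.norm_eq_abs, abs_of_nonneg (mul_nonneg (jump_nonneg k N s) (by positivity)),
        div_eq_mul_one_div (jump k N s)]
      apply mul_le_mul_of_nonneg_left _ (jump_nonneg k N s)
      rw [div_le_div_iff₀ hn' hs', one_mul]
      have h1 : R N (n / s) * s ≤ n :=
        (Nat.mul_le_mul_right s (R_le N (n / s))).trans (Nat.div_mul_le_self n s)
      exact_mod_cast h1
    · rw [norm_zero]
      exact div_nonneg (jump_nonneg k N s) (Nat.cast_nonneg s)

lemma F_div_bounds (k N n : ℕ) (hN : 0 < N) (hn : 0 < n) :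
    (W k N n : ℝ) / n - 1 / N ≤ (F k n : ℝ) / n ∧ (F k n : ℝ) / n ≤ (W k N n : ℝ) / n := by
  have hn' : (0 : ℝ) < n := by exact_mod_cast hn
  have hN' : (0 : ℝ) < N := by exact_mod_cast hN
  constructor
  · have h1 : (W k N n : ℝ) ≤ (F k n : ℝ) + (n / N : ℕ) := by exact_mod_cast W_le_F k N n hN
    have h2 : ((n / N : ℕ) : ℝ) ≤ (n : ℝ) / N := Nat.cast_div_le
    have h3 : (W k N n : ℝ) / n - 1 / N = ((W k N n : ℝ) - n / N) / n := by
      field_simp
    rw [h3]
    gcongr
    linarith
  · have h1 : (F k n : ℝ) ≤ (W k N n : ℝ) := by exact_mod_cast F_le_W k N n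
    gcongr

/-- For every `k`, the limit `c = lim F_k(n)/n` exists, and it is computed by the explicit
quantities `C k N`: for every `N ≥ 1`, `c ≤ C k N ≤ c + 1/N`. -/
theorem result (k : ℕ) :
    ∃ c : ℝ, Tendsto (fun n : ℕ => (F k n : ℝ) / (n : ℝ)) atTop (𝓝 c) ∧
      ∀ N : ℕ, 1 ≤ N → c ≤ C k N ∧ C k N ≤ c + 1 / (N : ℝ) := by
  have hcauchy : CauchySeq (fun n : ℕ => (F k n : ℝ) / (n : ℝ)) := by
    rw [Metric.cauchySeq_iff']
    intro ε hε
    obtain ⟨N, hN⟩ := exists_nat_gt (4 / ε)
    have hN0' : (0 : ℝ) < N := lt_trans (by positivity) hN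
    have hN0 : 0 < N := by exact_mod_cast hN0'
    have h1 := tendsto_W k N
    rw [Metric.tendsto_atTop] at h1
    obtain ⟨n0, hn0⟩ := h1 (ε / 4) (by positivity)
    have hNe : 1 / (N : ℝ) < ε / 4 := by
      rw [div_lt_div_iff₀ hN0' (by norm_num)]
      rw [div_lt_iff₀ hε] at hN
      linarith
    have key : ∀ n : ℕ, max n0 1 ≤ n → |(F k n : ℝ) / n - C k N| < ε / 2 := by
      intro n hn
      have hn1 : n0 ≤ n := le_trans (le_max_left _ _) hn
      have hn2 : 0 < n := lt_of_lt_of_le (by norm_num) (le_trans (le_max_right n0 1) hn)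
      have h2 := hn0 n hn1
      rw [Real.dist_eq, abs_lt] at h2
      obtain ⟨h3, h4⟩ := F_div_bounds k N n hN0 hn2
      rw [abs_lt]
      constructor <;> linarith [h2.1, h2.2]
    refine ⟨max n0 1, fun n hn => ?_⟩
    have h5 := key n hn
    have h6 := key (max n0 1) le_rfl
    rw [Real.dist_eq, abs_lt]
    rw [abs_lt] at h5 h6
    constructor <;> linarith [h5.1, h5.2, h6.1, h6.2]
  obtain ⟨c, hc⟩ := cauchySeq_tendsto_of_complete hcauchy
  refine ⟨c, hc, fun N hN => ⟨?_, ?_⟩⟩
  · apply le_of_tendsto_of_tendsto hc (tendsto_W k N)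
    filter_upwards [Filter.eventually_ge_atTop 1] with n hn
    exact (F_div_bounds k N n hN hn).2
  · have h1 : Tendsto (fun n : ℕ => (W k N n : ℝ) / n - 1 / N) atTop (𝓝 (C k N - 1 / N)) :=
      (tendsto_W k N).sub_const _
    have h2 : C k N - 1 / N ≤ c := by
      apply le_of_tendsto_of_tendsto h1 hc
      filter_upwards [Filter.eventually_ge_atTop 1] with n hn
      exact (F_div_bounds k N n hN hn).1
    linarith

end Pool.Agent.Results.MP_573265_nt.AsymptoticConstant
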