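import Pool.Agent.Results.MP_573265_nt.AsymptoticConstant
import Pool.Agent.Lib.MP_5b0a7e_nt.Mertens

set_option autoImplicit false

open Finset Filter Topology

namespace Pool.Agent.Results.MP_573265_nt.DecayRate

open Pool.Agent.Results.MP_573265_nt.AsymptoticConstant (IsAdmissible maxAdm F le_maxAdm
  exists_maxAdm decomp_exists coprime_smooth_rough prime_dvd_M)

/-! ### Upper bound for `F`: disjoint copies of the divisor lattice of `m` -/

/-- integers in `[1, q*m]` coprime to `m` -/
lemma card_coprime (m q : ℕ) :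
    ((Icc 1 (q * m)).filter (fun x => m.Coprime x)).card = q * m.totient := by
  induction q with
  | zero => simp
  | succ q ih =>
    have h1 : (Icc 1 ((q + 1) * m)).filter (fun x => m.Coprime x) =
        (Icc 1 (q * m)).filter (fun x => m.Coprime x) ∪
          (Ico (q * m + 1) (q * m + 1 + m)).filter (fun x => m.Coprime x) := by
      ext x
      rw [mem_union, mem_filter, mem_filter, mem_filter, mem_Icc, mem_Icc, mem_Ico]
      have h : (q + 1) * m = q * m + m := by ring
      rw [h]
      constructor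
      · rintro ⟨⟨h1, h2⟩, h3⟩
        by_cases h4 : x ≤ q * m
        · exact Or.inl ⟨⟨h1, h4⟩, h3⟩
        · exact Or.inr ⟨⟨by omega, by omega⟩, h3⟩
      · rintro (⟨⟨h1, h2⟩, h3⟩ | ⟨⟨h1, h2⟩, h3⟩)
        · exact ⟨⟨h1, by omega⟩, h3⟩
        · exact ⟨⟨by omega, by omega⟩, h3⟩
    have hd : Disjoint ((Icc 1 (q * m)).filter (fun x => m.Coprime x))
        ((Ico (q * m + 1) (q * m + 1 + m)).filter (fun x => m.Coprime x)) := by
      rw [disjoint_left]
      intro x hx hx'
      rw [mem_filter, mem_Icc] at hx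
      rw [mem_filter, mem_Ico] at hx'
      omega
    rw [h1, card_union_of_disjoint hd, ih, Nat.filter_coprime_Ico_eq_totient]
    ring

lemma F_upper (k m q : ℕ) (hm : 0 < m) (hτ : k < m.divisors.card) :
    F k (q * m * m) + q * m.totient ≤ q * m * m := by
  classical
  obtain ⟨A, hA1, hA2, hA3⟩ := exists_maxAdm k (Icc 1 (q * m * m))
  have hF : F k (q * m * m) = A.card := hA3.symm
  -- a missing element in each copy
  have hmiss : ∀ x ∈ (Icc 1 (q * m)).filter (fun x => m.Coprime x),
      ∃ d ∈ m.divisors, x * d ∉ A := by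
    intro x hx
    rw [mem_filter, mem_Icc] at hx
    by_contra hcon
    push Not at hcon
    have hxm : x * m ∈ A := hcon m (by rw [Nat.mem_divisors]; exact ⟨dvd_rfl, hm.ne'⟩)
    have h1 := hA2 (x * m) hxm
    have h2 : (m.divisors.erase m).image (fun d => x * d) ⊆
        A.filter (fun b => b ≠ x * m ∧ b ∣ x * m) := by
      intro b hb
      rw [mem_image] at hb
      obtain ⟨d, hd, rfl⟩ := hb
      rw [mem_erase, Nat.mem_divisors] at hd
      rw [mem_filter]
      refine ⟨hcon d (by rw [Nat.mem_divisors]; exact hd.2), ?_, ?_⟩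
      · intro h
        exact hd.1 (Nat.eq_of_mul_eq_mul_left (by omega) h)
      · exact Nat.mul_dvd_mul_left x hd.2.1
    have h3 := card_le_card h2
    rw [card_image_of_injective _ (fun a b h => Nat.eq_of_mul_eq_mul_left (by omega : 0 < x) h),
      card_erase_of_mem (by rw [Nat.mem_divisors]; exact ⟨dvd_rfl, hm.ne'⟩)] at h3
    omega
  choose! f hf1 hf2 using hmiss
  have hinj : Set.InjOn (fun x => x * f x)
      ((Icc 1 (q * m)).filter (fun x => m.Coprime x) : Set ℕ) := by
    intro x hx y hy hxy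
    have hx' := Finset.mem_coe.1 hx
    have hy' := Finset.mem_coe.1 hy
    have hdx := hf1 x hx'
    have hdy := hf1 y hy'
    rw [mem_filter] at hx' hy'
    rw [Nat.mem_divisors] at hdx hdy
    have hxy' : x * f x = y * f y := hxy
    have h1 : x ∣ y := by
      have : Nat.Coprime x (f y) := (hx'.2.symm).coprime_dvd_right hdy.1
      exact this.dvd_of_dvd_mul_right (hxy' ▸ dvd_mul_right x (f x))
    have h2 : y ∣ x := by
      have : Nat.Coprime y (f x) := (hy'.2.symm).coprime_dvd_right hdx.1
      exact this.dvd_of_dvd_mul_right (hxy'.symm ▸ dvd_mul_right y (f y))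
    exact Nat.dvd_antisymm h1 h2
  have hsub : ((Icc 1 (q * m)).filter (fun x => m.Coprime x)).image (fun x => x * f x) ⊆
      Icc 1 (q * m * m) \ A := by
    intro b hb
    rw [mem_image] at hb
    obtain ⟨x, hx, rfl⟩ := hb
    have hd := hf1 x hx
    have hn := hf2 x hx
    rw [mem_filter, mem_Icc] at hx
    rw [Finset.mem_sdiff, mem_Icc]
    have hd1 := Nat.pos_of_mem_divisors hd
    have hd2 := Nat.divisor_le hd
    refine ⟨⟨Nat.mul_pos (by omega) hd1, Nat.mul_le_mul hx.1.2 hd2⟩, hn⟩
  have h4 := card_le_card hsub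
  rw [card_image_of_injOn hinj, card_coprime, card_sdiff_of_subset hA1, Nat.card_Icc] at h4
  have h5 := card_le_card hA1
  rw [Nat.card_Icc] at h5
  rw [hF]
  omega

/-- the limit version -/
lemma lim_upper {k : ℕ} {c : ℝ} (hc : Tendsto (fun n : ℕ => (F k n : ℝ) / (n : ℝ)) atTop (𝓝 c))
    {m : ℕ} (hm : 0 < m) (hτ : k < m.divisors.card) :
    (m.totient : ℝ) / m ^ 2 ≤ 1 - c := by
  have hm' : (0 : ℝ) < m := by exact_mod_cast hm
  have hsub : Tendsto (fun q : ℕ => (q + 1) * m * m) atTop atTop := by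
    refine tendsto_atTop_mono (f := fun q : ℕ => q) ?_ tendsto_id
    intro q
    show q ≤ (q + 1) * m * m
    have : (q + 1) * 1 * 1 ≤ (q + 1) * m * m := by gcongr <;> omega
    omega
  have h1 := hc.comp hsub
  have h2 : ∀ q : ℕ, ((fun n : ℕ => (F k n : ℝ) / (n : ℝ)) ∘ (fun q : ℕ => (q + 1) * m * m)) q ≤
      1 - (m.totient : ℝ) / m ^ 2 := by
    intro q
    show (F k ((q + 1) * m * m) : ℝ) / (((q + 1) * m * m : ℕ) : ℝ) ≤ _
    have h3 := F_upper k m (q + 1) hm hτ
    have h4 : (F k ((q + 1) * m * m) : ℝ) + ((q : ℝ) + 1) * m.totient ≤ ((q : ℝ) + 1) * m * m := by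
      exact_mod_cast h3
    have h5 : (0 : ℝ) < ((q : ℝ) + 1) * m * m := by positivity
    push_cast
    rw [div_le_iff₀ h5]
    have h6 : (1 - (m.totient : ℝ) / m ^ 2) * (((q : ℝ) + 1) * m * m) =
        ((q : ℝ) + 1) * m * m - ((q : ℝ) + 1) * m.totient := by
      field_simp
    rw [h6]
    linarith
  have := le_of_tendsto' h1 h2
  linarith

/-! ### Lower bound for `F`: integers with few divisors below `M` -/

/-- number of divisors of `a` in `[2, M)` -/
def dv (M a : ℕ) : ℕ := ((Ico 2 M).filter (fun d => d ∣ a)).card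

lemma F_lower (k M n : ℕ) (hM : 1 ≤ M) :
    n ≤ F k n + n / M + ((Icc 1 n).filter (fun a => k ≤ dv M a)).card := by
  classical
  have h2Q : n < (n / M + 1) * M := (Nat.div_lt_iff_lt_mul (by omega)).1 (Nat.lt_succ_self _)
  generalize n / M = Q at h2Q ⊢
  set A := (Icc (Q + 1) n).filter (fun a => dv M a < k) with hA
  have hadm : IsAdmissible k A := by
    intro a ha
    rw [hA, mem_filter, mem_Icc] at ha
    refine lt_of_le_of_lt ?_ ha.2
    unfold dv
    refine card_le_card_of_injOn (fun b => a / b) ?_ ?_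
    · intro b hb
      have hb' := Finset.mem_coe.1 hb
      rw [mem_filter, hA, mem_filter, mem_Icc] at hb'
      obtain ⟨⟨⟨hb1, hb2⟩, hb3⟩, hb4, hb5⟩ := hb'
      have hb0 : 0 < b := by omega
      have hba : b ≤ a := Nat.le_of_dvd (by omega) hb5
      obtain ⟨d, rfl⟩ := hb5
      show b * d / b ∈ (↑((Ico 2 M).filter (fun d' => d' ∣ b * d)) : Set ℕ)
      rw [Nat.mul_div_cancel_left _ hb0, Finset.mem_coe, mem_filter, mem_Ico]
      have hd0 : d ≠ 0 := by
        rintro rfl
        simp at ha
      have hd1 : d ≠ 1 := by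
        rintro rfl
        exact hb4 (by ring)
      refine ⟨⟨by omega, ?_⟩, dvd_mul_left d b⟩
      by_contra hdM
      push Not at hdM
      have h1 : (Q + 1) * M ≤ b * d := Nat.mul_le_mul hb1 hdM
      have := ha.1.2
      omega
    · intro b hb b' hb' h
      have hb1 := Finset.mem_coe.1 hb
      have hb2 := Finset.mem_coe.1 hb'
      rw [mem_filter, hA, mem_filter, mem_Icc] at hb1 hb2
      have h' : a / b = a / b' := h
      have ha0 : a ≠ 0 := by omega
      rw [← Nat.div_div_self hb1.2.2 ha0, h', Nat.div_div_self hb2.2.2 ha0]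
  have h1 : A.card ≤ F k n := le_maxAdm (by
    intro a ha
    rw [hA, mem_filter, mem_Icc] at ha
    rw [mem_Icc]
    omega) hadm
  have h2 : (Icc (Q + 1) n).card ≤ A.card +
      ((Icc 1 n).filter (fun a => k ≤ dv M a)).card := by
    rw [← card_filter_add_card_filter_not (s := Icc (Q + 1) n) (fun a => dv M a < k)]
    refine Nat.add_le_add_left ?_ _
    refine card_le_card ?_
    intro a ha
    rw [mem_filter, mem_Icc] at ha
    rw [mem_filter, mem_Icc]
    exact ⟨⟨by omega, ha.1.2⟩, by omega⟩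
  rw [Nat.card_Icc] at h2
  omega

/-- exponent of the primes of `P` -/
def Om (P : Finset ℕ) (a : ℕ) : ℕ := ∑ p ∈ P, a.factorization p

/-- Rankin type bound -/
lemma rankin (z : ℝ) (hz : 1 ≤ z) (P : Finset ℕ) :
    (∀ p ∈ P, p.Prime ∧ z < p) → ∀ n : ℕ,
      ∑ a ∈ Icc 1 n, z ^ Om P a ≤ n * ∏ p ∈ P, ((p : ℝ) / (p - z)) := by
  classical
  induction P using Finset.induction_on with
  | empty => intro _ n; simp [Om]
  | insert q P hq ih =>
    intro hP
    have hqP := hP q (mem_insert_self q P)
    have hPP : ∀ p ∈ P, p.Prime ∧ z < p := fun p hp => hP p (mem_insert_of_mem hp)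
    have ih' := ih hPP
    have hprod : 0 ≤ ∏ p ∈ P, ((p : ℝ) / (p - z)) := by
      refine prod_nonneg ?_
      intro p hp
      have := (hPP p hp).2
      have : 0 < (p : ℝ) - z := by linarith
      positivity
    have hqz : 0 < (q : ℝ) - z := by linarith [hqP.2]
    have hq0 : (0 : ℝ) < q := by exact_mod_cast hqP.1.pos
    intro n
    induction n using Nat.strong_induction_on with
    | _ n ihn =>
      rcases Nat.eq_zero_or_pos n with h0 | h0
      · subst h0; simp
      rw [prod_insert hq]
      rw [← sum_filter_add_sum_filter_not (Icc 1 n) (fun a => q ∣ a)]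
      -- multiples of q
      have h1 : ∑ a ∈ (Icc 1 n).filter (fun a => q ∣ a), z ^ Om (insert q P) a =
          ∑ b ∈ Icc 1 (n / q), z * z ^ Om (insert q P) b := by
        symm
        refine sum_bij' (fun b _ => q * b) (fun a _ => a / q) ?_ ?_ ?_ ?_ ?_
        · intro b hb
          rw [mem_Icc] at hb
          rw [mem_filter, mem_Icc]
          refine ⟨⟨Nat.mul_pos hqP.1.pos (by omega), ?_⟩, dvd_mul_right q b⟩
          calc q * b ≤ q * (n / q) := Nat.mul_le_mul_left q hb.2
            _ ≤ n := Nat.mul_div_le n q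
        · intro a ha
          rw [mem_filter, mem_Icc] at ha
          rw [mem_Icc]
          exact ⟨Nat.div_pos (Nat.le_of_dvd (by omega) ha.2) hqP.1.pos,
            Nat.div_le_div_right ha.1.2⟩
        · intro b _
          show q * b / q = b
          exact Nat.mul_div_cancel_left b hqP.1.pos
        · intro a ha
          rw [mem_filter] at ha
          exact Nat.mul_div_cancel' ha.2
        · intro b hb
          rw [mem_Icc] at hb
          show z * z ^ Om (insert q P) b = z ^ Om (insert q P) (q * b)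
          have hO : Om (insert q P) (q * b) = Om (insert q P) b + 1 := by
            unfold Om
            rw [Nat.factorization_mul hqP.1.ne_zero (by omega)]
            simp only [Finsupp.add_apply]
            rw [sum_add_distrib, add_comm]
            congr 1
            rw [sum_insert hq, hqP.1.factorization_self]
            have : ∑ x ∈ P, q.factorization x = 0 := by
              refine sum_eq_zero ?_
              intro x hx
              rw [hqP.1.factorization, Finsupp.single_apply, if_neg]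
              rintro rfl
              exact hq hx
            rw [this]
          rw [hO, pow_succ]
          ring
      have h2 : ∑ a ∈ (Icc 1 n).filter (fun a => ¬ q ∣ a), z ^ Om (insert q P) a ≤
          ∑ a ∈ Icc 1 n, z ^ Om P a := by
        have h3 : ∀ a ∈ (Icc 1 n).filter (fun a => ¬ q ∣ a),
            z ^ Om (insert q P) a = z ^ Om P a := by
          intro a ha
          rw [mem_filter] at ha
          unfold Om
          rw [sum_insert hq, Nat.factorization_eq_zero_of_not_dvd ha.2, zero_add]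
        rw [sum_congr rfl h3]
        refine sum_le_sum_of_subset_of_nonneg (filter_subset _ _) ?_
        intro a _ _
        positivity
      have h4 : n / q < n := Nat.div_lt_self h0 hqP.1.one_lt
      have h5 := ihn (n / q) h4
      rw [prod_insert hq] at h5
      rw [h1, ← mul_sum]
      have h6 : ((n / q : ℕ) : ℝ) ≤ (n : ℝ) / q := Nat.cast_div_le
      have h7 : z * ∑ b ∈ Icc 1 (n / q), z ^ Om (insert q P) b ≤
          z * ((n : ℝ) / q * ((q : ℝ) / (q - z) * ∏ p ∈ P, ((p : ℝ) / (p - z)))) := by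
        refine mul_le_mul_of_nonneg_left (h5.trans ?_) (by linarith)
        refine mul_le_mul_of_nonneg_right h6 ?_
        positivity
      have h8 := ih' n
      have h9 : z * ((n : ℝ) / q * ((q : ℝ) / (q - z) * ∏ p ∈ P, ((p : ℝ) / (p - z)))) +
          (n : ℝ) * ∏ p ∈ P, ((p : ℝ) / (p - z)) =
          (n : ℝ) * ((q : ℝ) / (q - z) * ∏ p ∈ P, ((p : ℝ) / (p - z))) := by
        field_simp
        ring
      linarith

/-- Markov -/
lemma card_Om (z : ℝ) (hz : 1 ≤ z) (P : Finset ℕ) (hP : ∀ p ∈ P, p.Prime ∧ 2 * z ≤ p) (n t : ℕ) :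
    (((Icc 1 n).filter (fun a => t ≤ Om P a)).card : ℝ) ≤
      n * (Real.exp (2 * z * ∑ p ∈ P, (1 : ℝ) / p) / z ^ t) := by
  have hz0 : 0 < z := by linarith
  have h1 := rankin z hz P (fun p hp => ⟨(hP p hp).1, by linarith [(hP p hp).2]⟩) n
  have h2 : (((Icc 1 n).filter (fun a => t ≤ Om P a)).card : ℝ) * z ^ t ≤
      ∑ a ∈ Icc 1 n, z ^ Om P a := by
    rw [← nsmul_eq_mul, ← sum_const]
    refine le_trans (sum_le_sum (g := fun a => z ^ Om P a) ?_) ?_
    · intro a ha
      rw [mem_filter] at ha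
      exact pow_le_pow_right₀ hz ha.2
    · refine sum_le_sum_of_subset_of_nonneg (filter_subset _ _) ?_
      intro a _ _
      positivity
  have h3 : ∏ p ∈ P, ((p : ℝ) / (p - z)) ≤ Real.exp (2 * z * ∑ p ∈ P, (1 : ℝ) / p) := by
    rw [mul_sum, Real.exp_sum]
    refine prod_le_prod ?_ ?_
    · intro p hp
      have h := (hP p hp).2
      have : 0 < (p : ℝ) - z := by linarith
      positivity
    · intro p hp
      have h := (hP p hp).2
      have h4 : 0 < (p : ℝ) - z := by linarith
      have h5 : 0 < (p : ℝ) := by linarith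
      have h6 : (p : ℝ) / (p - z) ≤ 2 * z * (1 / p) + 1 := by
        rw [div_le_iff₀ h4]
        have : (2 * z * (1 / (p : ℝ)) + 1) * (p - z) = p + z * (p - 2 * z) / p := by
          field_simp
          ring
        rw [this]
        have : 0 ≤ z * (p - 2 * z) / p := by
          have : 0 ≤ (p : ℝ) - 2 * z := by linarith
          positivity
        linarith
      exact h6.trans (Real.add_one_le_exp _)
  have hn : (0 : ℝ) ≤ n := Nat.cast_nonneg n
  rw [mul_div_assoc', le_div_iff₀ (by positivity)]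
  refine h2.trans (h1.trans ?_)
  exact mul_le_mul_of_nonneg_left h3 hn

lemma dv_le_prod (M a : ℕ) (ha : a ≠ 0) :
    dv M a + 1 ≤ ∏ p ∈ M.primesBelow, (a.factorization p + 1) := by
  classical
  obtain ⟨s, t, hs, ht, hst⟩ := decomp_exists M ha
  have hs0 : s ≠ 0 := by rintro rfl; simp at hst; exact ha hst
  have ht0 : t ≠ 0 := by rintro rfl; simp at hst; exact ha hst
  have h1 : dv M a + 1 ≤ s.divisors.card := by
    have h2 : insert 1 ((Ico 2 M).filter (fun d => d ∣ a)) ⊆ s.divisors := by
      intro d hd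
      rw [mem_insert, mem_filter, mem_Ico] at hd
      rw [Nat.mem_divisors]
      refine ⟨?_, hs0⟩
      rcases hd with rfl | ⟨⟨hd1, hd2⟩, hd3⟩
      · exact one_dvd s
      · have h3 : d.Coprime t :=
          coprime_smooth_rough (Nat.mem_smoothNumbers_of_lt (by omega) hd2) ht
        rw [hst] at hd3
        exact h3.dvd_of_dvd_mul_right hd3
    have h3 := card_le_card h2
    rw [card_insert_of_notMem (by simp)] at h3
    exact h3
  refine h1.trans ?_
  rw [Nat.card_divisors hs0]
  have hsub : s.primeFactors ⊆ M.primesBelow := by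
    intro p hp
    rw [Nat.mem_primeFactors] at hp
    rw [Nat.mem_primesBelow]
    exact ⟨Nat.mem_smoothNumbers'.1 hs p hp.1 hp.2.1, hp.1⟩
  have hle : ∀ p, s.factorization p ≤ a.factorization p := by
    intro p
    rw [hst, Nat.factorization_mul hs0 ht0, Finsupp.add_apply]
    omega
  refine le_trans (prod_le_prod' (fun p _ => Nat.succ_le_succ (hle p))) ?_
  refine prod_le_prod_of_subset_of_one_le' hsub ?_
  intro p _ _
  omega

/-- the primes in `[y, M)` -/
def PP (y M : ℕ) : Finset ℕ := M.primesBelow.filter (fun p => y ≤ p)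

lemma dv_lt {k y V t M a : ℕ} (hV : 1 ≤ V) (ha : a ≠ 0) (hk : V ^ y * 2 ^ t ≤ k)
    (h1 : ∀ p ∈ y.primesBelow, ¬ p ^ V ∣ a) (h2 : Om (PP y M) a < t) : dv M a < k := by
  classical
  have h3 := dv_le_prod M a ha
  rw [← prod_filter_mul_prod_filter_not M.primesBelow (fun p => y ≤ p)] at h3
  have h4 : ∏ p ∈ M.primesBelow.filter (fun p => y ≤ p), (a.factorization p + 1) ≤
      2 ^ Om (PP y M) a := by
    unfold Om PP
    rw [← prod_pow_eq_pow_sum]
    refine prod_le_prod' ?_
    intro p _
    exact Nat.lt_two_pow_self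
  have h5 : ∏ p ∈ M.primesBelow.filter (fun p => ¬ y ≤ p), (a.factorization p + 1) ≤ V ^ y := by
    calc ∏ p ∈ M.primesBelow.filter (fun p => ¬ y ≤ p), (a.factorization p + 1)
        ≤ ∏ p ∈ M.primesBelow.filter (fun p => ¬ y ≤ p), V := by
          refine prod_le_prod' ?_
          intro p hp
          rw [mem_filter, Nat.mem_primesBelow] at hp
          have h6 := h1 p (by rw [Nat.mem_primesBelow]; exact ⟨by omega, hp.1.2⟩)
          rw [hp.1.2.pow_dvd_iff_le_factorization ha] at h6
          omega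
      _ = V ^ (M.primesBelow.filter (fun p => ¬ y ≤ p)).card := by rw [prod_const]
      _ ≤ V ^ y := by
          refine Nat.pow_le_pow_right hV ?_
          have h6 : M.primesBelow.filter (fun p => ¬ y ≤ p) ⊆ range y := by
            intro p hp
            rw [mem_filter] at hp
            rw [mem_range]
            omega
          have := card_le_card h6
          rwa [card_range] at this
  have h7 : (2 : ℕ) ^ Om (PP y M) a ≤ 2 ^ t := Nat.pow_le_pow_right (by norm_num) h2.le
  have h8 := Nat.mul_le_mul (h4.trans h7) h5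
  have : 2 ^ t * V ^ y ≤ k := by rw [mul_comm]; exact hk
  omega

/-- the number of exceptional integers -/
lemma count_exc {k y V t M : ℕ} {z : ℝ} (hM : 2 ≤ M) (hV : 1 ≤ V) (hz : 1 ≤ z) (hzy : 2 * z ≤ y)
    (hk : V ^ y * 2 ^ t ≤ k) (n : ℕ) :
    (((Icc 1 n).filter (fun a => k ≤ dv M a)).card : ℝ) ≤
      n * ((y : ℝ) / 2 ^ V + Real.exp (2 * z * (Real.log (Real.log M) + 6)) / z ^ t) := by
  classical
  have hsub : (Icc 1 n).filter (fun a => k ≤ dv M a) ⊆
      (y.primesBelow.biUnion (fun p => (Ioc 0 n).filter (fun a => p ^ V ∣ a))) ∪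
        (Icc 1 n).filter (fun a => t ≤ Om (PP y M) a) := by
    intro a ha
    rw [mem_filter, mem_Icc] at ha
    rw [mem_union]
    by_contra hcon
    rw [not_or] at hcon
    obtain ⟨hc1, hc2⟩ := hcon
    have h1 : ∀ p ∈ y.primesBelow, ¬ p ^ V ∣ a := by
      intro p hp hpa
      refine hc1 ?_
      rw [mem_biUnion]
      refine ⟨p, hp, ?_⟩
      rw [mem_filter, mem_Ioc]
      exact ⟨⟨by omega, ha.1.2⟩, hpa⟩
    have h2 : Om (PP y M) a < t := by
      by_contra h
      refine hc2 ?_
      rw [mem_filter, mem_Icc]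
      exact ⟨ha.1, by omega⟩
    have := dv_lt hV (by omega) hk h1 h2
    omega
  have hn : (0 : ℝ) ≤ n := Nat.cast_nonneg n
  have h1 := card_le_card hsub
  have h2 := h1.trans (card_union_le _ _)
  have h3 : ((y.primesBelow.biUnion (fun p => (Ioc 0 n).filter (fun a => p ^ V ∣ a))).card : ℝ) ≤
      n * ((y : ℝ) / 2 ^ V) := by
    calc ((y.primesBelow.biUnion (fun p => (Ioc 0 n).filter (fun a => p ^ V ∣ a))).card : ℝ)
        ≤ ∑ p ∈ y.primesBelow, (((Ioc 0 n).filter (fun a => p ^ V ∣ a)).card : ℝ) := by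
          exact_mod_cast card_biUnion_le
      _ ≤ ∑ p ∈ y.primesBelow, (n : ℝ) / 2 ^ V := by
          refine sum_le_sum ?_
          intro p hp
          rw [Nat.Ioc_filter_dvd_card_eq_div]
          have hp2 : 2 ≤ p := (Nat.prime_of_mem_primesBelow hp).two_le
          refine (Nat.cast_div_le).trans ?_
          push_cast
          refine div_le_div_of_nonneg_left hn (by positivity) ?_
          exact pow_le_pow_left₀ (by norm_num) (by exact_mod_cast hp2) V
      _ = (y.primesBelow.card : ℝ) * ((n : ℝ) / 2 ^ V) := by rw [sum_const, nsmul_eq_mul]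
      _ ≤ (y : ℝ) * ((n : ℝ) / 2 ^ V) := by
          refine mul_le_mul_of_nonneg_right ?_ (by positivity)
          have h4 : y.primesBelow ⊆ range y := by
            intro p hp
            rw [mem_range]
            exact Nat.lt_of_mem_primesBelow hp
          have h5 := card_le_card h4
          rw [card_range] at h5
          exact_mod_cast h5
      _ = n * ((y : ℝ) / 2 ^ V) := by ring
  have h6 : (((Icc 1 n).filter (fun a => t ≤ Om (PP y M) a)).card : ℝ) ≤
      n * (Real.exp (2 * z * (Real.log (Real.log M) + 6)) / z ^ t) := by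
    have hPP : ∀ p ∈ PP y M, p.Prime ∧ 2 * z ≤ p := by
      intro p hp
      unfold PP at hp
      rw [mem_filter] at hp
      refine ⟨Nat.prime_of_mem_primesBelow hp.1, hzy.trans ?_⟩
      exact_mod_cast hp.2
    refine (card_Om z hz (PP y M) hPP n t).trans ?_
    refine mul_le_mul_of_nonneg_left ?_ hn
    refine div_le_div_of_nonneg_right ?_ (by positivity)
    rw [Real.exp_le_exp]
    refine mul_le_mul_of_nonneg_left ?_ (by linarith)
    have h7 := LPAP.sum_inv_prime_le (M - 1) (by omega)
    have h8 : ((M - 1 : ℕ) : ℝ) + 1 = M := by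
      rw [Nat.cast_sub (by omega)]; push_cast; ring
    rw [h8] at h7
    refine le_trans ?_ h7
    refine sum_le_sum_of_subset_of_nonneg ?_ ?_
    · intro p hp
      unfold PP at hp
      rw [mem_filter, Nat.mem_primesBelow] at hp
      rw [mem_filter, mem_Ioc]
      exact ⟨⟨hp.1.2.pos, by omega⟩, hp.1.2⟩
    · intro p _ _
      positivity
  have h9 : (((Icc 1 n).filter (fun a => k ≤ dv M a)).card : ℝ) ≤
      ((y.primesBelow.biUnion (fun p => (Ioc 0 n).filter (fun a => p ^ V ∣ a))).card : ℝ) +
        (((Icc 1 n).filter (fun a => t ≤ Om (PP y M) a)).card : ℝ) := by exact_mod_cast h2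
  rw [mul_add]
  linarith

/-- the limit version of the lower bound -/
lemma lim_lower {k : ℕ} {c : ℝ} (hc : Tendsto (fun n : ℕ => (F k n : ℝ) / (n : ℝ)) atTop (𝓝 c))
    {y V t M : ℕ} {z : ℝ} (hM : 2 ≤ M) (hV : 1 ≤ V) (hz : 1 ≤ z) (hzy : 2 * z ≤ y)
    (hk : V ^ y * 2 ^ t ≤ k) :
    1 - c ≤ 1 / M + ((y : ℝ) / 2 ^ V + Real.exp (2 * z * (Real.log (Real.log M) + 6)) / z ^ t) := by
  have key : 1 - (1 / M + ((y : ℝ) / 2 ^ V +
      Real.exp (2 * z * (Real.log (Real.log M) + 6)) / z ^ t)) ≤ c := by
    refine ge_of_tendsto hc ?_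
    filter_upwards [eventually_ge_atTop 1] with n hn
    have hn' : (0 : ℝ) < n := by exact_mod_cast hn
    rw [le_div_iff₀ hn']
    have h1 := F_lower k M n (by omega)
    have h2 : (n : ℝ) ≤ F k n + ((n / M : ℕ) : ℝ) +
        (((Icc 1 n).filter (fun a => k ≤ dv M a)).card : ℝ) := by exact_mod_cast h1
    have h3 : ((n / M : ℕ) : ℝ) ≤ (n : ℝ) / M := Nat.cast_div_le
    have h4 := count_exc hM hV hz hzy hk n
    have h5 : (n : ℝ) / M = n * (1 / M) := by ring
    rw [h5] at h3
    nlinarith
  linarith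

/-! ### Products of distinct primes -/

lemma prod_primes (S : Finset ℕ) (hS : ∀ p ∈ S, p.Prime) :
    0 < ∏ p ∈ S, p ∧ (∏ p ∈ S, p).divisors.card = 2 ^ S.card ∧
      ((∏ p ∈ S, p : ℕ) : ℝ) ≤ 2 ^ S.card * ((∏ p ∈ S, p).totient : ℝ) := by
  classical
  induction S using Finset.induction_on with
  | empty => simp
  | insert q S hq ih =>
    have hqP := hS q (mem_insert_self q S)
    have hSS : ∀ p ∈ S, p.Prime := fun p hp => hS p (mem_insert_of_mem hp)
    obtain ⟨h0, h1, h2⟩ := ih hSS
    have hcop : Nat.Coprime q (∏ p ∈ S, p) := by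
      refine Nat.Coprime.prod_right ?_
      intro p hp
      rw [Nat.coprime_primes hqP (hSS p hp)]
      rintro rfl
      exact hq hp
    rw [prod_insert hq, card_insert_of_notMem hq]
    refine ⟨Nat.mul_pos hqP.pos h0, ?_, ?_⟩
    · rw [hcop.card_divisors_mul, h1, hqP.divisors, card_insert_of_notMem (by
        rw [mem_singleton]; exact hqP.one_lt.ne), card_singleton]
      ring
    · rw [Nat.totient_mul hcop, Nat.totient_prime hqP]
      have h3 : (q : ℝ) ≤ 2 * ((q - 1 : ℕ) : ℝ) := by
        have := hqP.two_le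
        have h4 : q ≤ 2 * (q - 1) := by omega
        exact_mod_cast h4
      push_cast at h2 ⊢
      calc (q : ℝ) * ∏ p ∈ S, (p : ℝ) ≤ (2 * ((q - 1 : ℕ) : ℝ)) *
            (2 ^ S.card * ((∏ p ∈ S, p).totient : ℝ)) := by
            refine mul_le_mul h3 h2 (by positivity) (by positivity)
        _ = 2 ^ (S.card + 1) * (((q - 1 : ℕ) : ℝ) * ((∏ p ∈ S, p).totient : ℝ)) := by ring

lemma lim_upper' {k : ℕ} {c : ℝ} (hc : Tendsto (fun n : ℕ => (F k n : ℝ) / (n : ℝ)) atTop (𝓝 c))
    {r X : ℕ} (hr : r ≤ Nat.primeCounting X) (hk : k < 2 ^ r) :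
    1 / (2 * (X : ℝ)) ^ r ≤ 1 - c := by
  classical
  rw [← Nat.primesLE_card_eq_primeCounting] at hr
  obtain ⟨S, hS1, hS2⟩ := exists_subset_card_eq hr
  have hS : ∀ p ∈ S, p.Prime := fun p hp => (Nat.mem_primesLE.1 (hS1 hp)).2
  obtain ⟨h0, h1, h2⟩ := prod_primes S hS
  have h3 := lim_upper hc h0 (by rw [h1, hS2]; exact hk)
  refine le_trans ?_ h3
  set m := ∏ p ∈ S, p with hm
  have hm0 : (0 : ℝ) < m := by exact_mod_cast h0
  have hmX : (m : ℝ) ≤ (X : ℝ) ^ r := by
    rw [← hS2, hm]
    push_cast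
    rw [← prod_const]
    refine prod_le_prod (fun p _ => Nat.cast_nonneg p) ?_
    intro p hp
    exact_mod_cast (Nat.mem_primesLE.1 (hS1 hp)).1
  rw [hS2] at h2
  have h4 : 1 / (2 * (X : ℝ)) ^ r ≤ 1 / (2 ^ r * (m : ℝ)) := by
    refine one_div_le_one_div_of_le (by positivity) ?_
    rw [mul_pow]
    exact mul_le_mul_of_nonneg_left hmX (by positivity)
  refine h4.trans ?_
  rw [div_le_div_iff₀ (by positivity) (by positivity)]
  calc 1 * (m : ℝ) ^ 2 = m * m := by ring
    _ ≤ (2 ^ r * (m.totient : ℝ)) * m := mul_le_mul_of_nonneg_right h2 hm0.le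
    _ = (m.totient : ℝ) * (2 ^ r * m) := by ring

/-! ### The choice of the parameters: `k = e^L`, `L = e^x`, `x = e^w` -/

/-- size relations -/
lemma sizes {L x w : ℝ} (hL : L = Real.exp x) (hx : x = Real.exp w) (hw : 10 ≤ w) :
    16 * w ≤ x ∧ 160 ≤ x ∧ 1000 * x ^ 2 ≤ L := by
  have h1 : w ^ 3 / (Nat.factorial 3 : ℝ) ≤ x := by
    rw [hx]; exact Real.pow_div_factorial_le_exp w (by linarith) 3
  have h2 : (Nat.factorial 3 : ℝ) = 6 := by norm_num [Nat.factorial]
  rw [h2, div_le_iff₀ (by norm_num)] at h1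
  have h3 : 100 * w ≤ w ^ 3 := by
    have e : w ^ 3 - 100 * w = w * (w - 10) * (w + 10) := by ring
    have : 0 ≤ w * (w - 10) * (w + 10) :=
      mul_nonneg (mul_nonneg (by linarith) (by linarith)) (by linarith)
    linarith
  have h4 : 16 * w ≤ x := by linarith
  have h5 : 160 ≤ x := by linarith
  have h6 : x ^ 4 / (Nat.factorial 4 : ℝ) ≤ L := by
    rw [hL]; exact Real.pow_div_factorial_le_exp x (by linarith) 4
  have h7 : (Nat.factorial 4 : ℝ) = 24 := by norm_num [Nat.factorial]
  rw [h7, div_le_iff₀ (by norm_num)] at h6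
  have h9 : 160 * 160 ≤ x ^ 2 := by nlinarith
  have h10 := sq_nonneg x
  have h8 : 25600 * x ^ 2 ≤ x ^ 4 := by
    have e : x ^ 4 = x ^ 2 * x ^ 2 := by ring
    rw [e]
    exact mul_le_mul_of_nonneg_right (by linarith) h10
  refine ⟨h4, h5, ?_⟩
  linarith

lemma log_mul_exp {A x w : ℝ} (hA : 0 < A) :
    Real.log (A * Real.exp x * Real.exp w) = Real.log A + x + w := by
  rw [Real.log_mul (by positivity) (by positivity), Real.log_mul (by positivity) (by positivity),
    Real.log_exp, Real.log_exp]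

lemma upper_est {k : ℕ} {c : ℝ} (hc : Tendsto (fun n : ℕ => (F k n : ℝ) / (n : ℝ)) atTop (𝓝 c))
    {L x w : ℝ} (hk : (k : ℝ) = Real.exp L) (hL : L = Real.exp x) (hx : x = Real.exp w)
    (hw : 10 ≤ w) :
    Real.exp (-(L * x / Real.log 2 + 14 * (L * w))) ≤ 1 - c := by
  obtain ⟨s1, s2, s3⟩ := sizes hL hx hw
  have l1 := Real.log_two_gt_d9
  have l2 := Real.log_two_lt_d9
  have hx0 : 0 < x := by linarith
  have hL0 : 0 < L := by rw [hL]; exact Real.exp_pos x
  have hLx : 1000 * x ≤ L := by nlinarith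
  have hk0 : k ≠ 0 := by
    rintro rfl
    have := Real.exp_pos L
    simp at hk
    linarith
  set r := Nat.log 2 k + 1 with hr
  have hr1 : (r : ℝ) ≤ L / Real.log 2 + 1 := by
    have h1 : (2 : ℕ) ^ Nat.log 2 k ≤ k := Nat.pow_log_le_self 2 hk0
    have h2 : (2 : ℝ) ^ Nat.log 2 k ≤ Real.exp L := by rw [← hk]; exact_mod_cast h1
    have h3 := Real.log_le_log (by positivity) h2
    rw [Real.log_pow, Real.log_exp] at h3
    have h4 : (Nat.log 2 k : ℝ) ≤ L / Real.log 2 := by
      rw [le_div_iff₀ (by linarith)]; exact h3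
    rw [hr]; push_cast; linarith
  have hdiv : L / Real.log 2 ≤ 3 / 2 * L := by
    rw [div_le_iff₀ (by linarith)]
    nlinarith
  have hr2 : (r : ℝ) ≤ 2 * L := by nlinarith
  set n := ⌈16 * L * x⌉₊ with hn
  have hn1 : 16 * L * x ≤ n := Nat.le_ceil _
  have hn2 : (n : ℝ) ≤ 16 * L * x + 1 := (Nat.ceil_lt_add_one (by positivity)).le
  have hLx1 : 1 ≤ L * x := by nlinarith
  have hn3 : (n : ℝ) ≤ 17 * L * x := by linarith
  have hn0 : (0 : ℝ) < n := by nlinarith
  have hlog : Real.log n ≤ 4 + x + w := by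
    have h1 : Real.log n ≤ Real.log (32 * Real.exp x * Real.exp w) := by
      refine Real.log_le_log hn0 ?_
      rw [← hL, ← hx]
      nlinarith
    rw [log_mul_exp (by norm_num)] at h1
    have h2 : Real.log 32 = 5 * Real.log 2 := by
      rw [show (32 : ℝ) = 2 ^ 5 by norm_num, Real.log_pow]; norm_num
    linarith
  have hlog2 : Real.log n ≤ 2 * x := by linarith
  have hπ : r ≤ Nat.primeCounting n := by
    have h1 := Chebyshev.pi_ge n
    have h2 : (r : ℝ) ≤ (n * Real.log 2 - Real.log (n + 1)) / Real.log n := by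
      have hn4 : (1 : ℝ) < n := by nlinarith
      rw [le_div_iff₀ (Real.log_pos hn4)]
      have h3 : Real.log ((n : ℝ) + 1) ≤ 2 * x + 1 := by
        have h4 : Real.log ((n : ℝ) + 1) ≤ Real.log (n * Real.exp 1) := by
          refine Real.log_le_log (by linarith) ?_
          have := Real.add_one_le_exp (1 : ℝ)
          nlinarith
        rw [Real.log_mul hn0.ne' (Real.exp_pos 1).ne', Real.log_exp] at h4
        linarith
      have h5 : (r : ℝ) * Real.log n ≤ 2 * L * (2 * x) :=
        mul_le_mul hr2 hlog2 (Real.log_nonneg hn4.le) (by linarith)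
      have h6 : 16 * L * x * (69 / 100) ≤ n * Real.log 2 :=
        mul_le_mul hn1 (by linarith) (by norm_num) hn0.le
      nlinarith
    exact_mod_cast h2.trans h1
  have hkr : k < 2 ^ r := Nat.lt_pow_succ_log_self (by norm_num) k
  have hmain := lim_upper' hc hπ hkr
  refine le_trans ?_ hmain
  have h2n : (0 : ℝ) < 2 * n := by linarith
  rw [Real.exp_neg, ← one_div]
  refine one_div_le_one_div_of_le (by positivity) ?_
  rw [← Real.exp_log (pow_pos h2n r), Real.log_pow, Real.exp_le_exp]
  have hlog3 : Real.log (2 * (n : ℝ)) ≤ x + 2 * w := by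
    have h1 : Real.log (2 * (n : ℝ)) ≤ Real.log (64 * Real.exp x * Real.exp w) := by
      refine Real.log_le_log h2n ?_
      rw [← hL, ← hx]
      nlinarith
    rw [log_mul_exp (by norm_num)] at h1
    have h2 : Real.log 64 = 6 * Real.log 2 := by
      rw [show (64 : ℝ) = 2 ^ 6 by norm_num, Real.log_pow]; norm_num
    linarith
  calc (r : ℝ) * Real.log (2 * (n : ℝ)) ≤ (L / Real.log 2 + 1) * (x + 2 * w) := by
        refine mul_le_mul hr1 hlog3 (Real.log_nonneg (by nlinarith)) (by positivity)
    _ = L * x / Real.log 2 + (L / Real.log 2 * (2 * w) + x + 2 * w) := by ring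
    _ ≤ L * x / Real.log 2 + 14 * (L * w) := by
        have h1 : L / Real.log 2 * (2 * w) ≤ 3 / 2 * L * (2 * w) :=
          mul_le_mul_of_nonneg_right hdiv (by linarith)
        have h2 : L * 10 ≤ L * w := mul_le_mul_of_nonneg_left hw hL0.le
        nlinarith

lemma lower_est {k : ℕ} {c : ℝ} (hc : Tendsto (fun n : ℕ => (F k n : ℝ) / (n : ℝ)) atTop (𝓝 c))
    {L x w : ℝ} (hk : (k : ℝ) = Real.exp L) (hL : L = Real.exp x) (hx : x = Real.exp w)
    (hw : 10 ≤ w) :
    1 - c ≤ Real.exp (-(L * x / Real.log 2 - 14 * (L * w))) := by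
  obtain ⟨s1, s2, s3⟩ := sizes hL hx hw
  have l1 := Real.log_two_gt_d9
  have l2 := Real.log_two_lt_d9
  have hx0 : 0 < x := by linarith
  have hL0 : 0 < L := by rw [hL]; exact Real.exp_pos x
  have hLx : 1000 * x ≤ L := by nlinarith
  have hLw : L * 10 ≤ L * w := mul_le_mul_of_nonneg_left hw hL0.le
  have hx2 : 0 < x ^ 2 := by positivity
  have hq : 1000 ≤ L / x ^ 2 := by rw [le_div_iff₀ hx2]; exact s3
  -- parameters
  set y := ⌊L / x ^ 2⌋₊ with hy
  set z := L / (4 * x ^ 2) with hz
  set V := ⌈L ^ 2⌉₊ with hV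
  set t := ⌊(L - 3 * L / x) / Real.log 2⌋₊ with ht
  set M := ⌈Real.exp (2 * L * x)⌉₊ with hM
  have hy1 : (y : ℝ) ≤ L / x ^ 2 := Nat.floor_le (by positivity)
  have hy2 : L / x ^ 2 < y + 1 := Nat.lt_floor_add_one _
  have hzq : z = L / x ^ 2 / 4 := by rw [hz]; field_simp
  have hz1 : 1 ≤ z := by rw [hzq]; linarith
  have hzy : 2 * z ≤ y := by rw [hzq]; linarith
  have hV1 : L ^ 2 ≤ V := Nat.le_ceil _
  have hV2 : (V : ℝ) ≤ L ^ 2 + 1 := (Nat.ceil_lt_add_one (by positivity)).le
  have hL2 : 1 ≤ L ^ 2 := by nlinarith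
  have hV0 : (0 : ℝ) < V := by linarith
  have hVn : 1 ≤ V := by exact_mod_cast (by linarith : (0:ℝ) < V)
  have hlogV : Real.log V ≤ 3 * x := by
    have h1 : Real.log V ≤ Real.log (2 * Real.exp x * Real.exp x) := by
      refine Real.log_le_log hV0 ?_
      rw [← hL]
      nlinarith
    rw [log_mul_exp (by norm_num)] at h1
    linarith
  have ht1 : (t : ℝ) ≤ (L - 3 * L / x) / Real.log 2 := by
    refine Nat.floor_le ?_
    have : 3 * L / x ≤ L := by rw [div_le_iff₀ hx0]; nlinarith
    have : 0 ≤ L - 3 * L / x := by linarith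
    positivity
  have ht2 : (L - 3 * L / x) / Real.log 2 < t + 1 := Nat.lt_floor_add_one _
  have hVy : (y : ℝ) * Real.log V ≤ 3 * L / x := by
    calc (y : ℝ) * Real.log V ≤ (L / x ^ 2) * (3 * x) := by
          refine mul_le_mul hy1 hlogV (Real.log_nonneg (by linarith)) (by positivity)
      _ = 3 * L / x := by field_simp
  have hkk : V ^ y * 2 ^ t ≤ k := by
    have h1 : (V : ℝ) ^ y * 2 ^ t ≤ k := by
      rw [hk, ← Real.exp_log (pow_pos hV0 y), ← Real.exp_log (pow_pos (by norm_num : (0:ℝ) < 2) t),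
        ← Real.exp_add, Real.exp_le_exp, Real.log_pow, Real.log_pow]
      rw [le_div_iff₀ (by linarith)] at ht1
      linarith
    exact_mod_cast h1
  have hM1 : Real.exp (2 * L * x) ≤ M := Nat.le_ceil _
  have hM2 : (M : ℝ) ≤ Real.exp (2 * L * x) + 1 := (Nat.ceil_lt_add_one (by positivity)).le
  have hLx1 : 1 ≤ L * x := by nlinarith
  have hE : 1 + 2 * L * x ≤ Real.exp (2 * L * x) := by
    have := Real.add_one_le_exp (2 * L * x); linarith
  have hM0 : (2 : ℝ) ≤ M := by linarith
  have hMn : 2 ≤ M := by exact_mod_cast hM0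
  have hlogM : Real.log M ≤ 3 * L * x := by
    have h1 : Real.log M ≤ Real.log (2 * Real.exp (2 * L * x)) := by
      refine Real.log_le_log (by linarith) ?_
      nlinarith
    rw [Real.log_mul (by norm_num) (Real.exp_pos _).ne', Real.log_exp] at h1
    linarith
  have hllM : Real.log (Real.log M) ≤ 2 * x := by
    have h0 : 0 < Real.log M := Real.log_pos (by linarith)
    have h1 : Real.log (Real.log M) ≤ Real.log (4 * Real.exp x * Real.exp w) := by
      refine Real.log_le_log h0 ?_
      rw [← hL, ← hx]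
      nlinarith
    rw [log_mul_exp (by norm_num)] at h1
    have h2 : Real.log 4 = 2 * Real.log 2 := by
      rw [show (4 : ℝ) = 2 ^ 2 by norm_num, Real.log_pow]; norm_num
    linarith
  have hmain := lim_lower hc hMn hVn hz1 hzy hkk
  set B := Real.exp (-(L * x / Real.log 2) + 4 * (L * w)) with hB
  have hA2 : L * x / Real.log 2 ≤ 3 / 2 * (L * x) := by
    rw [div_le_iff₀ (by linarith)]; nlinarith
  have hLw0 : 0 < L * w := by positivity
  have T1 : 1 / (M : ℝ) ≤ B := by
    calc 1 / (M : ℝ) ≤ 1 / Real.exp (2 * L * x) := one_div_le_one_div_of_le (Real.exp_pos _) hM1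
      _ = Real.exp (-(2 * L * x)) := by rw [Real.exp_neg, one_div]
      _ ≤ B := by rw [hB, Real.exp_le_exp]; nlinarith
  have T2 : (y : ℝ) / 2 ^ V ≤ B := by
    have h1 : (y : ℝ) ≤ Real.exp x := by
      rw [← hL]
      refine hy1.trans ?_
      rw [div_le_iff₀ hx2]
      nlinarith
    calc (y : ℝ) / 2 ^ V ≤ Real.exp x / 2 ^ V := div_le_div_of_nonneg_right h1 (by positivity)
      _ = Real.exp (x - V * Real.log 2) := by
          rw [Real.exp_sub, ← Real.log_pow, Real.exp_log (by positivity)]
      _ ≤ B := by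
          rw [hB, Real.exp_le_exp]
          have h2 : L ^ 2 * (69 / 100) ≤ V * Real.log 2 :=
            mul_le_mul hV1 (by linarith) (by norm_num) hV0.le
          have h3 : 1000 * (L * x) ≤ L ^ 2 := by nlinarith
          nlinarith
  have hlogz : Real.log z = x - 2 * w - 2 * Real.log 2 := by
    rw [hz, Real.log_div hL0.ne' (by positivity), Real.log_mul (by norm_num) (by positivity),
      Real.log_pow]
    have h2 : Real.log 4 = 2 * Real.log 2 := by
      rw [show (4 : ℝ) = 2 ^ 2 by norm_num, Real.log_pow]; norm_num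
    have h3 : Real.log L = x := by rw [hL, Real.log_exp]
    have h4 : Real.log x = w := by rw [hx, Real.log_exp]
    rw [h2, h3, h4]; push_cast; ring
  have T3 : Real.exp (2 * z * (Real.log (Real.log M) + 6)) / z ^ t ≤ B := by
    have hz0 : 0 < z := by linarith
    rw [← Real.exp_log (pow_pos hz0 t), Real.log_pow, ← Real.exp_sub, hB, Real.exp_le_exp]
    have h1 : 2 * z * (Real.log (Real.log M) + 6) ≤ L := by
      calc 2 * z * (Real.log (Real.log M) + 6) ≤ 2 * z * (2 * x + 6) :=
            mul_le_mul_of_nonneg_left (by linarith) (by linarith)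
        _ = L * (x + 3) / x ^ 2 := by rw [hz]; field_simp; ring
        _ ≤ L := by
            rw [div_le_iff₀ hx2]
            refine mul_le_mul_of_nonneg_left ?_ hL0.le
            nlinarith
    have h2 : (L / Real.log 2 - 3 * (L / Real.log 2) / x - 1) * Real.log z ≤ t * Real.log z := by
      refine mul_le_mul_of_nonneg_right ?_ (by rw [hlogz]; linarith)
      have : (L - 3 * L / x) / Real.log 2 = L / Real.log 2 - 3 * (L / Real.log 2) / x := by
        field_simp
      linarith
    have hA : L / Real.log 2 ≤ 3 / 2 * L := by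
      rw [div_le_iff₀ (by linarith)]; nlinarith
    have hA0 : 0 < L / Real.log 2 := by positivity
    set A := L / Real.log 2 with hAdef
    have h3 : A * x - A * (2 * w + 2 * Real.log 2) - 3 * A - x ≤
        (A - 3 * A / x - 1) * Real.log z := by
      rw [hlogz]
      have e1 : (A - 3 * A / x - 1) * (x - 2 * w - 2 * Real.log 2) =
          A * x - A * (2 * w + 2 * Real.log 2) - 3 * A - x +
            (3 * A / x + 1) * (2 * w + 2 * Real.log 2) := by
        field_simp
        ring
      rw [e1]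
      have : 0 ≤ (3 * A / x + 1) * (2 * w + 2 * Real.log 2) := by positivity
      linarith
    have h4 : L * x / Real.log 2 = A * x := by rw [hAdef]; ring
    have h5 : A * (2 * w + 2 * Real.log 2) ≤ 3 / 2 * L * (2 * w + 2 * Real.log 2) :=
      mul_le_mul_of_nonneg_right hA (by positivity)
    have h6 : L * Real.log 2 ≤ L * 1 := mul_le_mul_of_nonneg_left (by linarith) hL0.le
    rw [h4]
    nlinarith
  have hB0 : 0 < B := Real.exp_pos _
  have hfin : 1 - c ≤ 3 * B := by linarith
  refine hfin.trans ?_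
  have h3 : (3 : ℝ) ≤ Real.exp (10 * (L * w)) := by
    have := Real.add_one_le_exp (10 * (L * w)); nlinarith
  calc 3 * B ≤ Real.exp (10 * (L * w)) * B := mul_le_mul_of_nonneg_right h3 hB0.le
    _ = Real.exp (-(L * x / Real.log 2 - 14 * (L * w))) := by
        rw [hB, ← Real.exp_add]; congr 1; ring

/-- The constants `c k = lim F_k(n)/n` satisfy
`-log (1 - c k) = (log k) (log log k) / log 2 + O((log k) (log log log k))`. -/
theorem result : ∃ c : ℕ → ℝ,
    (∀ k, Tendsto (fun n : ℕ => (F k n : ℝ) / (n : ℝ)) atTop (𝓝 (c k))) ∧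
    ∀ᶠ k : ℕ in atTop, c k < 1 ∧
      |-Real.log (1 - c k) - Real.log k * Real.log (Real.log k) / Real.log 2| ≤
        14 * (Real.log k * Real.log (Real.log (Real.log k))) := by
  choose c hc using fun k => (AsymptoticConstant.result k)
  refine ⟨c, fun k => (hc k).1, ?_⟩
  have h1 : Tendsto (fun k : ℕ => Real.log (Real.log (Real.log (k : ℝ)))) atTop atTop :=
    Real.tendsto_log_atTop.comp (Real.tendsto_log_atTop.comp
      (Real.tendsto_log_atTop.comp tendsto_natCast_atTop_atTop))
  have h2 : Tendsto (fun k : ℕ => Real.log (Real.log (k : ℝ))) atTop atTop :=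
    Real.tendsto_log_atTop.comp (Real.tendsto_log_atTop.comp tendsto_natCast_atTop_atTop)
  have h3 : Tendsto (fun k : ℕ => Real.log (k : ℝ)) atTop atTop :=
    Real.tendsto_log_atTop.comp tendsto_natCast_atTop_atTop
  filter_upwards [h1.eventually_ge_atTop 10, h2.eventually_ge_atTop 1, h3.eventually_ge_atTop 1,
    eventually_ge_atTop 1] with k hw hx hL hk
  set L := Real.log (k : ℝ) with hLdef
  set x := Real.log L with hxdef
  set w := Real.log x with hwdef
  have hk0 : (0 : ℝ) < k := by exact_mod_cast hk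
  have e1 : (k : ℝ) = Real.exp L := (Real.exp_log hk0).symm
  have e2 : L = Real.exp x := (Real.exp_log (by linarith)).symm
  have e3 : x = Real.exp w := (Real.exp_log (by linarith)).symm
  have u := upper_est (hc k).1 e1 e2 e3 hw
  have l := lower_est (hc k).1 e1 e2 e3 hw
  have hpos : 0 < 1 - c k := lt_of_lt_of_le (Real.exp_pos _) u
  refine ⟨by linarith, ?_⟩
  have u' := Real.log_le_log (Real.exp_pos _) u
  rw [Real.log_exp] at u'
  have l' := Real.log_le_log hpos l
  rw [Real.log_exp] at l'
  rw [abs_le]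
  constructor <;> linarith

end Pool.Agent.Results.MP_573265_nt.DecayRate
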