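import Pool.Agent.Results.MP_573265_nt.AsymptoticConstant

open Finset Filter Topology

namespace Pool.Agent.Results.MP_573265_nt.ErrorTerm

open Pool.Agent.Results.MP_573265_nt.AsymptoticConstant

/-- density of the integers without prime factor `< N` -/
private noncomputable def phi (N : ℕ) : ℝ := ((M N).totient : ℝ) / (M N : ℝ)

private lemma phi_eq (N : ℕ) : phi N = ∏ p ∈ N.primesBelow, (1 - (p : ℝ)⁻¹) := totient_div N

private lemma phi_nonneg (N : ℕ) : 0 ≤ phi N := by unfold phi; positivity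

private lemma phi_le_one (N : ℕ) : phi N ≤ 1 := by
  unfold phi
  apply div_le_one_of_le₀
  · exact_mod_cast Nat.totient_le _
  · positivity

/-! ### Legendre's sieve with a power saving -/

private lemma M_succ_prime {N : ℕ} (hp : N.Prime) : M (N + 1) = N * M N := by
  unfold M
  rw [Nat.primesBelow_succ, if_pos hp, Finset.prod_insert (Nat.notMem_primesBelow N)]

private lemma M_succ_not {N : ℕ} (hp : ¬ N.Prime) : M (N + 1) = M N := by
  unfold M
  rw [Nat.primesBelow_succ, if_neg hp]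

private lemma M_coprime_self {N : ℕ} (hp : N.Prime) : (M N).Coprime N := by
  rw [Nat.coprime_comm, Nat.Prime.coprime_iff_not_dvd hp, prime_dvd_M hp]
  omega

private lemma R_succ_prime {N : ℕ} (hp : N.Prime) (y : ℕ) :
    R N y = R (N + 1) y + R N (y / N) := by
  have hinj : Function.Injective (fun t : ℕ => N * t) := by
    intro a b hab
    exact Nat.eq_of_mul_eq_mul_left hp.pos hab
  unfold R
  rw [← Finset.card_image_of_injective ((Finset.Icc 1 (y / N)).filter (fun t => (M N).Coprime t))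
    hinj, ← Finset.card_union_of_disjoint]
  · congr 1
    ext t
    simp only [Finset.mem_filter, Finset.mem_Icc, Finset.mem_union, Finset.mem_image]
    rw [M_succ_prime hp]
    constructor
    · rintro ⟨⟨h1, h2⟩, h3⟩
      by_cases hd : N ∣ t
      · right
        obtain ⟨u, rfl⟩ := hd
        refine ⟨u, ⟨⟨?_, ?_⟩, Nat.Coprime.coprime_mul_left_right h3⟩, rfl⟩
        · rcases Nat.eq_zero_or_pos u with h | h
          · subst h; simp at h1
          · exact h
        · rw [Nat.le_div_iff_mul_le hp.pos, Nat.mul_comm]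
          exact h2
      · left
        exact ⟨⟨h1, h2⟩, Nat.Coprime.mul_left ((Nat.Prime.coprime_iff_not_dvd hp).2 hd) h3⟩
    · rintro (⟨⟨h1, h2⟩, h3⟩ | ⟨u, ⟨⟨h1, h2⟩, h3⟩, rfl⟩)
      · exact ⟨⟨h1, h2⟩, Nat.Coprime.coprime_mul_left h3⟩
      · refine ⟨⟨Nat.mul_pos hp.pos h1, ?_⟩, Nat.Coprime.mul_right (M_coprime_self hp) h3⟩
        have := (Nat.le_div_iff_mul_le hp.pos).1 h2
        rw [Nat.mul_comm]
        exact this
  · rw [Finset.disjoint_left]
    intro t h1 h2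
    simp only [Finset.mem_filter, Finset.mem_Icc, Finset.mem_image] at h1 h2
    obtain ⟨u, _, rfl⟩ := h2
    have h3 := h1.2
    rw [M_succ_prime hp] at h3
    have h4 : Nat.Coprime N (N * u) := Nat.Coprime.coprime_mul_right h3
    have h5 : N ∣ 1 := by
      rw [← Nat.coprime_iff_gcd_eq_one.1 h4]
      exact Nat.dvd_gcd dvd_rfl (Dvd.intro _ rfl)
    exact hp.one_lt.ne' (Nat.dvd_one.1 h5)

/-- the sieve product -/
private noncomputable def PP (σ : ℝ) (N : ℕ) : ℝ := ∏ p ∈ N.primesBelow, (1 + (p : ℝ) ^ (-σ))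

private lemma PP_ge_one (σ : ℝ) (N : ℕ) : 1 ≤ PP σ N := by
  unfold PP
  calc (1 : ℝ) = ∏ _p ∈ N.primesBelow, (1 : ℝ) := by rw [Finset.prod_const_one]
    _ ≤ ∏ p ∈ N.primesBelow, (1 + (p : ℝ) ^ (-σ)) := by
        apply Finset.prod_le_prod (fun _ _ => zero_le_one)
        intro p _
        have : (0 : ℝ) ≤ (p : ℝ) ^ (-σ) := by positivity
        linarith

private lemma sieve {σ : ℝ} (h0 : 0 < σ) (h1 : σ ≤ 1) (N : ℕ) :
    ∀ x : ℝ, 0 ≤ x → |(R N ⌊x⌋₊ : ℝ) - phi N * x| ≤ x ^ σ * PP σ N := by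
  induction N with
  | zero =>
    intro x hx
    have hR : R 0 ⌊x⌋₊ = ⌊x⌋₊ := by
      unfold R M
      simp
    have hphi : phi 0 = 1 := by
      rw [phi_eq]
      simp
    have hPP : PP σ 0 = 1 := by
      unfold PP
      simp
    rw [hR, hphi, hPP, one_mul, mul_one, abs_sub_comm]
    have hf1 := Nat.floor_le hx
    have hf2 := Nat.lt_floor_add_one x
    rw [abs_of_nonneg (by linarith)]
    rcases lt_or_ge x 1 with h | h
    · have h3 : x ≤ x ^ σ := by
        rcases eq_or_lt_of_le hx with h4 | h4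
        · rw [← h4, Real.zero_rpow h0.ne']
        · calc x = x ^ (1 : ℝ) := (Real.rpow_one x).symm
            _ ≤ x ^ σ := Real.rpow_le_rpow_of_exponent_ge h4 h.le h1
      have h5 : (0 : ℝ) ≤ (⌊x⌋₊ : ℝ) := Nat.cast_nonneg _
      linarith
    · have h3 : 1 ≤ x ^ σ := Real.one_le_rpow h h0.le
      linarith
  | succ N ih =>
    intro x hx
    by_cases hp : N.Prime
    · have hN : (0 : ℝ) < N := by exact_mod_cast hp.pos
      have e1 := ih x hx
      have e2 := ih (x / N) (by positivity)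
      rw [Nat.floor_div_natCast] at e2
      have hR : (R N ⌊x⌋₊ : ℝ) = (R (N + 1) ⌊x⌋₊ : ℝ) + (R N (⌊x⌋₊ / N) : ℝ) := by
        exact_mod_cast R_succ_prime hp ⌊x⌋₊
      have hphi : phi (N + 1) = (1 - (N : ℝ)⁻¹) * phi N := by
        rw [phi_eq, phi_eq, Nat.primesBelow_succ, if_pos hp,
          Finset.prod_insert (Nat.notMem_primesBelow N)]
      have hPP : PP σ (N + 1) = (1 + (N : ℝ) ^ (-σ)) * PP σ N := by
        unfold PP
        rw [Nat.primesBelow_succ, if_pos hp, Finset.prod_insert (Nat.notMem_primesBelow N)]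
      have e3 : (R (N + 1) ⌊x⌋₊ : ℝ) - phi (N + 1) * x =
          ((R N ⌊x⌋₊ : ℝ) - phi N * x) - ((R N (⌊x⌋₊ / N) : ℝ) - phi N * (x / N)) := by
        rw [hR, hphi]
        field_simp
        ring
      have e4 : (x / N) ^ σ = x ^ σ * (N : ℝ) ^ (-σ) := by
        rw [Real.div_rpow hx hN.le, Real.rpow_neg hN.le, div_eq_mul_inv]
      rw [e3, hPP]
      calc _ ≤ |(R N ⌊x⌋₊ : ℝ) - phi N * x| + |(R N (⌊x⌋₊ / N) : ℝ) - phi N * (x / N)| :=
            abs_sub _ _
        _ ≤ x ^ σ * PP σ N + (x / N) ^ σ * PP σ N := add_le_add e1 e2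
        _ = x ^ σ * ((1 + (N : ℝ) ^ (-σ)) * PP σ N) := by rw [e4]; ring
    · have hR : R (N + 1) ⌊x⌋₊ = R N ⌊x⌋₊ := by
        unfold R
        rw [M_succ_not hp]
      have hphi : phi (N + 1) = phi N := by
        unfold phi
        rw [M_succ_not hp]
      have hPP : PP σ (N + 1) = PP σ N := by
        unfold PP
        rw [Nat.primesBelow_succ, if_neg hp]
      rw [hR, hphi, hPP]
      exact ih x hx

/-! ### Sums over smooth numbers -/

private lemma prime_rpow {σ : ℝ} (h : 1 / 2 ≤ σ) {p : ℕ} (hp : p.Prime) :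
    0 ≤ (p : ℝ) ^ (-σ) ∧ (p : ℝ) ^ (-σ) ≤ 3 / 4 := by
  have hp2 : (2 : ℝ) ≤ p := by exact_mod_cast hp.two_le
  refine ⟨by positivity, ?_⟩
  have h0 : (p : ℝ) ^ (-σ) ≤ (p : ℝ) ^ (-(1 / 2) : ℝ) :=
    Real.rpow_le_rpow_of_exponent_le (by linarith) (by linarith)
  refine h0.trans ?_
  rw [Real.rpow_neg (by positivity), ← Real.sqrt_eq_rpow]
  have h1 : (4 / 3 : ℝ) ≤ Real.sqrt p := by
    apply Real.le_sqrt_of_sq_le
    norm_num
    linarith
  calc (Real.sqrt p)⁻¹ ≤ (4 / 3 : ℝ)⁻¹ := inv_anti₀ (by norm_num) h1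
    _ = 3 / 4 := by norm_num

/-- the Euler product -/
private noncomputable def QQ (σ : ℝ) (N : ℕ) : ℝ := ∏ p ∈ N.primesBelow, (1 - (p : ℝ) ^ (-σ))⁻¹

private lemma QQ_pos {σ : ℝ} (h : 1 / 2 ≤ σ) (N : ℕ) : 0 < QQ σ N := by
  unfold QQ
  apply Finset.prod_pos
  intro p hp
  have := prime_rpow h (Nat.prime_of_mem_primesBelow hp)
  exact inv_pos.2 (by linarith [this.2])

private lemma hasSum_rpow {σ : ℝ} (h : 1 / 2 ≤ σ) (N : ℕ) :
    HasSum (Set.indicator (N.smoothNumbers) (fun m : ℕ => (m : ℝ) ^ (-σ))) (QQ σ N) := by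
  let f : ℕ →* ℝ :=
    { toFun := fun n => (n : ℝ) ^ (-σ)
      map_one' := by simp
      map_mul' := by
        intro a b
        push_cast
        exact Real.mul_rpow (Nat.cast_nonneg a) (Nat.cast_nonneg b) }
  have hf : ∀ {p : ℕ}, p.Prime → ‖f p‖ < 1 := by
    intro p hp
    have h1 := prime_rpow h hp
    show ‖(p : ℝ) ^ (-σ)‖ < 1
    rw [Real.norm_eq_abs, abs_of_nonneg h1.1]
    linarith [h1.2]
  exact hasSum_subtype_iff_indicator.1
    (EulerProduct.summable_and_hasSum_smoothNumbers_prod_primesBelow_geometric hf N).2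

private lemma ind_nonneg (σ : ℝ) (N s : ℕ) :
    0 ≤ Set.indicator (N.smoothNumbers) (fun m : ℕ => (m : ℝ) ^ (-σ)) s := by
  apply Set.indicator_nonneg
  intro m _
  positivity

/-- partial sum -/
private noncomputable def Sn (k N n : ℕ) : ℝ := ∑ s ∈ Finset.Icc 1 n, jump k N s / (s : ℝ)

private lemma W_near {σ : ℝ} (h0 : 1 / 2 ≤ σ) (h1 : σ ≤ 1) (k N n : ℕ) :
    |(W k N n : ℝ) - n * (phi N * Sn k N n)| ≤ (n : ℝ) ^ σ * (PP σ N * QQ σ N) := by
  have e1 : (W k N n : ℝ) - n * (phi N * Sn k N n) =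
      ∑ s ∈ Finset.Icc 1 n, jump k N s * ((R N (n / s) : ℝ) - phi N * (n / s)) := by
    rw [W_eq]
    unfold Sn
    rw [Finset.mul_sum, Finset.mul_sum, ← Finset.sum_sub_distrib]
    apply Finset.sum_congr rfl
    intro s _
    ring
  have hP := PP_ge_one σ N
  rw [e1]
  calc |∑ s ∈ Finset.Icc 1 n, jump k N s * ((R N (n / s) : ℝ) - phi N * (n / s))|
      ≤ ∑ s ∈ Finset.Icc 1 n, |jump k N s * ((R N (n / s) : ℝ) - phi N * (n / s))| :=
        Finset.abs_sum_le_sum_abs _ _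
    _ ≤ ∑ s ∈ Finset.Icc 1 n, (n : ℝ) ^ σ * PP σ N *
          Set.indicator (N.smoothNumbers) (fun m : ℕ => (m : ℝ) ^ (-σ)) s := by
        apply Finset.sum_le_sum
        intro s hs
        rw [Finset.mem_Icc] at hs
        have hs0 : (0 : ℝ) < s := by exact_mod_cast hs.1
        rw [abs_mul, abs_of_nonneg (jump_nonneg k N s)]
        by_cases hsm : s ∈ N.smoothNumbers
        · rw [Set.indicator_of_mem hsm]
          have e2 := sieve (by linarith : 0 < σ) h1 N ((n : ℝ) / s) (by positivity)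
          have e3 : ⌊(n : ℝ) / (s : ℝ)⌋₊ = n / s := by
            rw [Nat.floor_div_natCast, Nat.floor_natCast]
          rw [e3] at e2
          have e4 : ((n : ℝ) / s) ^ σ = (n : ℝ) ^ σ * (s : ℝ) ^ (-σ) := by
            rw [Real.div_rpow (Nat.cast_nonneg n) hs0.le, Real.rpow_neg hs0.le, div_eq_mul_inv]
          rw [e4] at e2
          calc jump k N s * |(R N (n / s) : ℝ) - phi N * (n / s)| ≤
              1 * |(R N (n / s) : ℝ) - phi N * (n / s)| :=
                mul_le_mul_of_nonneg_right (jump_le_one k N s) (abs_nonneg _)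
            _ ≤ (n : ℝ) ^ σ * (s : ℝ) ^ (-σ) * PP σ N := by rw [one_mul]; exact e2
            _ = _ := by ring
        · rw [Set.indicator_of_notMem hsm, jump_of_not_smooth k N s hsm]
          simp
    _ = (n : ℝ) ^ σ * PP σ N * ∑ s ∈ Finset.Icc 1 n,
          Set.indicator (N.smoothNumbers) (fun m : ℕ => (m : ℝ) ^ (-σ)) s := by
        rw [Finset.mul_sum]
    _ ≤ (n : ℝ) ^ σ * PP σ N * QQ σ N := by
        apply mul_le_mul_of_nonneg_left _ (by positivity)
        have h := hasSum_rpow h0 N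
        rw [← h.tsum_eq]
        exact h.summable.sum_le_tsum _ (fun s _ => ind_nonneg σ N s)
    _ = (n : ℝ) ^ σ * (PP σ N * QQ σ N) := by ring

private lemma C_eq (k N : ℕ) : C k N = phi N * ∑' s : ℕ, jump k N s / (s : ℝ) := by
  unfold C phi
  rw [← totient_div]
  rfl

private lemma tail {σ : ℝ} (h0 : 1 / 2 ≤ σ) (h1 : σ ≤ 1) (k N n : ℕ) (hn : 0 < n) :
    (n : ℝ) * ∑' s : ℕ, jump k N s / (s : ℝ) ≤ n * Sn k N n + (n : ℝ) ^ σ * QQ σ N := by
  have hsum := hasSum_rpow h0 N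
  have hn' : (0 : ℝ) < n := by exact_mod_cast hn
  have hsj := summable_jump k N
  have hpt : ∀ s : ℕ, jump k N s / (s : ℝ) ≤
      (if s ∈ Finset.Icc 1 n then jump k N s / (s : ℝ) else 0) +
      (n : ℝ) ^ (σ - 1) * Set.indicator (N.smoothNumbers) (fun m : ℕ => (m : ℝ) ^ (-σ)) s := by
    intro s
    have hnn := ind_nonneg σ N s
    by_cases hs : s ∈ Finset.Icc 1 n
    · rw [if_pos hs]
      have : 0 ≤ (n : ℝ) ^ (σ - 1) *
        Set.indicator (N.smoothNumbers) (fun m : ℕ => (m : ℝ) ^ (-σ)) s := by positivity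
      linarith
    · rw [if_neg hs, zero_add]
      by_cases hsm : s ∈ N.smoothNumbers
      · rw [Set.indicator_of_mem hsm]
        have hs0 : 0 < s := Nat.pos_of_ne_zero (Nat.ne_zero_of_mem_smoothNumbers hsm)
        have hsn : n < s := by
          rw [Finset.mem_Icc] at hs
          omega
        have hs' : (0 : ℝ) < s := by exact_mod_cast hs0
        have hle : (s : ℝ) ^ (σ - 1) ≤ (n : ℝ) ^ (σ - 1) :=
          Real.rpow_le_rpow_of_nonpos hn' (by exact_mod_cast hsn.le) (by linarith)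
        calc jump k N s / (s : ℝ) ≤ 1 / (s : ℝ) := by
              apply div_le_div_of_nonneg_right (jump_le_one k N s) hs'.le
          _ = (s : ℝ) ^ (σ - 1) * (s : ℝ) ^ (-σ) := by
              rw [← Real.rpow_add hs', one_div, ← Real.rpow_neg_one]
              congr 1
              ring
          _ ≤ (n : ℝ) ^ (σ - 1) * (s : ℝ) ^ (-σ) := by
              apply mul_le_mul_of_nonneg_right hle
              positivity
      · rw [jump_of_not_smooth k N s hsm, zero_div]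
        positivity
  have hs1 : Summable (fun s : ℕ => if s ∈ Finset.Icc 1 n then jump k N s / (s : ℝ) else 0) :=
    summable_of_ne_finset_zero (s := Finset.Icc 1 n) (fun s hs => if_neg hs)
  have hs2 := hsum.summable.mul_left ((n : ℝ) ^ (σ - 1))
  have e1 := Summable.tsum_le_tsum hpt hsj (hs1.add hs2)
  rw [hs1.tsum_add hs2, tsum_mul_left, hsum.tsum_eq] at e1
  have e2 : ∑' s : ℕ, (if s ∈ Finset.Icc 1 n then jump k N s / (s : ℝ) else 0) = Sn k N n := by
    unfold Sn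
    rw [tsum_eq_sum (s := Finset.Icc 1 n) (fun s hs => if_neg hs)]
    apply Finset.sum_congr rfl
    intro s hs
    rw [if_pos hs]
  rw [e2] at e1
  have e3 : (n : ℝ) * (n : ℝ) ^ (σ - 1) = (n : ℝ) ^ σ := by
    rw [mul_comm]
    nth_rewrite 2 [← Real.rpow_one (n : ℝ)]
    rw [← Real.rpow_add hn']
    congr 1
    ring
  calc (n : ℝ) * ∑' s : ℕ, jump k N s / (s : ℝ) ≤
      n * (Sn k N n + (n : ℝ) ^ (σ - 1) * QQ σ N) := mul_le_mul_of_nonneg_left e1 hn'.le
    _ = n * Sn k N n + (n * (n : ℝ) ^ (σ - 1)) * QQ σ N := by ring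
    _ = n * Sn k N n + (n : ℝ) ^ σ * QQ σ N := by rw [e3]

/-- the bound with free parameters -/
private lemma bound {σ : ℝ} (h0 : 1 / 2 ≤ σ) (h1 : σ ≤ 1) (k N n : ℕ) (hN : 0 < N) (hn : 0 < n)
    {c : ℝ} (hc1 : c ≤ C k N) (hc2 : C k N ≤ c + 1 / N) :
    |(F k n : ℝ) - c * n| ≤ n / N + 2 * (n : ℝ) ^ σ * (PP σ N * QQ σ N) := by
  have hn' : (0 : ℝ) < n := by exact_mod_cast hn
  have hN' : (0 : ℝ) < N := by exact_mod_cast hN
  have hφ0 := phi_nonneg N
  have hφ1 := phi_le_one N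
  have hP := PP_ge_one σ N
  have hQ := QQ_pos h0 N
  have hnσ : (0 : ℝ) ≤ (n : ℝ) ^ σ := by positivity
  have hW2 := abs_le.1 (W_near h0 h1 k N n)
  have hF1 : (F k n : ℝ) ≤ (W k N n : ℝ) := by exact_mod_cast F_le_W k N n
  have hF2 : (W k N n : ℝ) ≤ (F k n : ℝ) + n / N := by
    have h1 : (W k N n : ℝ) ≤ (F k n : ℝ) + (n / N : ℕ) := by exact_mod_cast W_le_F k N n hN
    have h2 : ((n / N : ℕ) : ℝ) ≤ (n : ℝ) / N := Nat.cast_div_le
    linarith
  rw [C_eq] at hc1 hc2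
  have hSle : Sn k N n ≤ ∑' s : ℕ, jump k N s / (s : ℝ) :=
    (summable_jump k N).sum_le_tsum _
      (fun s _ => div_nonneg (jump_nonneg k N s) (Nat.cast_nonneg s))
  have hup : n * (phi N * Sn k N n) ≤ c * n + n / N := by
    have h1 : phi N * Sn k N n ≤ c + 1 / N :=
      (mul_le_mul_of_nonneg_left hSle hφ0).trans hc2
    calc n * (phi N * Sn k N n) ≤ n * (c + 1 / N) := mul_le_mul_of_nonneg_left h1 hn'.le
      _ = c * n + n / N := by ring
  have hQP : (n : ℝ) ^ σ * QQ σ N ≤ (n : ℝ) ^ σ * (PP σ N * QQ σ N) := by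
    apply mul_le_mul_of_nonneg_left _ hnσ
    exact le_mul_of_one_le_left hQ.le hP
  have hlow : c * n ≤ n * (phi N * Sn k N n) + (n : ℝ) ^ σ * (PP σ N * QQ σ N) := by
    have e1 := tail h0 h1 k N n hn
    have e2 : c * n ≤ phi N * (n * ∑' s : ℕ, jump k N s / (s : ℝ)) := by
      calc c * n ≤ (phi N * ∑' s : ℕ, jump k N s / (s : ℝ)) * n :=
            mul_le_mul_of_nonneg_right hc1 hn'.le
        _ = _ := by ring
    have e3 : phi N * (n * ∑' s : ℕ, jump k N s / (s : ℝ)) ≤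
        phi N * (n * Sn k N n + (n : ℝ) ^ σ * QQ σ N) := mul_le_mul_of_nonneg_left e1 hφ0
    have e4 : phi N * ((n : ℝ) ^ σ * QQ σ N) ≤ 1 * ((n : ℝ) ^ σ * QQ σ N) :=
      mul_le_mul_of_nonneg_right hφ1 (by positivity)
    calc c * n ≤ phi N * (n * Sn k N n + (n : ℝ) ^ σ * QQ σ N) := e2.trans e3
      _ = n * (phi N * Sn k N n) + phi N * ((n : ℝ) ^ σ * QQ σ N) := by ring
      _ ≤ n * (phi N * Sn k N n) + (n : ℝ) ^ σ * (PP σ N * QQ σ N) := by linarith
  have hpos : (0 : ℝ) ≤ (n : ℝ) ^ σ * (PP σ N * QQ σ N) := by positivity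
  rw [abs_le]
  constructor
  · linarith [hW2.1]
  · linarith [hW2.2]

/-! ### The products -/

private lemma PQ_le {σ : ℝ} (h : 1 / 2 ≤ σ) (N : ℕ) :
    PP σ N * QQ σ N ≤ Real.exp (5 * ∑ p ∈ N.primesBelow, (p : ℝ) ^ (-σ)) := by
  unfold PP QQ
  rw [← Finset.prod_mul_distrib, Finset.mul_sum, Real.exp_sum]
  apply Finset.prod_le_prod
  · intro p hp
    have h1 := prime_rpow h (Nat.prime_of_mem_primesBelow hp)
    exact mul_nonneg (by linarith [h1.1]) (inv_nonneg.2 (by linarith [h1.2]))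
  · intro p hp
    obtain ⟨h1, h2⟩ := prime_rpow h (Nat.prime_of_mem_primesBelow hp)
    set y := (p : ℝ) ^ (-σ)
    have h3 : 1 + y ≤ Real.exp y := by linarith [Real.add_one_le_exp y]
    have h4 : (1 - y)⁻¹ ≤ Real.exp (4 * y) := by
      have h5 : (1 - y)⁻¹ ≤ 1 + 4 * y := by
        rw [inv_le_iff_one_le_mul₀ (by linarith)]
        nlinarith
      linarith [Real.add_one_le_exp (4 * y)]
    calc (1 + y) * (1 - y)⁻¹ ≤ Real.exp y * Real.exp (4 * y) :=
          mul_le_mul h3 h4 (inv_nonneg.2 (by linarith)) (Real.exp_pos _).le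
      _ = Real.exp (5 * y) := by rw [← Real.exp_add]; congr 1; ring

private lemma sum_primes {δ z : ℝ} (hz : 1 < z) (hδ : δ * Real.log z = 1) :
    ∑ p ∈ (⌈z⌉₊).primesBelow, (p : ℝ) ^ (-(1 - δ)) ≤ Real.exp 1 * Real.log z := by
  have hz0 : 0 < z := by linarith
  have hlz : 0 < Real.log z := Real.log_pos hz
  have hδ0 : 0 ≤ δ := by
    by_contra hneg
    push Not at hneg
    nlinarith
  have h1 : ∀ p ∈ (⌈z⌉₊).primesBelow, (p : ℝ) ^ (-(1 - δ)) ≤ Real.exp 1 * (p : ℝ)⁻¹ := by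
    intro p hp
    have hpp := Nat.prime_of_mem_primesBelow hp
    have hlt := Nat.lt_of_mem_primesBelow hp
    have hpz : (p : ℝ) ≤ z := (Nat.lt_ceil.1 hlt).le
    have hp0 : (0 : ℝ) < p := by exact_mod_cast hpp.pos
    calc (p : ℝ) ^ (-(1 - δ)) = (p : ℝ) ^ δ * (p : ℝ)⁻¹ := by
          rw [← Real.rpow_neg_one, ← Real.rpow_add hp0]
          congr 1
          ring
      _ ≤ Real.exp 1 * (p : ℝ)⁻¹ := by
          apply mul_le_mul_of_nonneg_right _ (by positivity)
          calc (p : ℝ) ^ δ ≤ z ^ δ := Real.rpow_le_rpow hp0.le hpz hδ0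
            _ = Real.exp 1 := by rw [Real.rpow_def_of_pos hz0, mul_comm, hδ]
  refine (Finset.sum_le_sum h1).trans ?_
  rw [← Finset.mul_sum]
  apply mul_le_mul_of_nonneg_left _ (Real.exp_pos 1).le
  -- the sum of the reciprocals of the integers `2, …, ⌊z⌋`
  have h2 : (⌈z⌉₊).primesBelow ⊆ Finset.Icc 2 ⌊z⌋₊ := by
    intro p hp
    have hpp := Nat.prime_of_mem_primesBelow hp
    have hlt := Nat.lt_of_mem_primesBelow hp
    rw [Finset.mem_Icc]
    exact ⟨hpp.two_le, Nat.le_floor (Nat.lt_ceil.1 hlt).le⟩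
  have h3 : ∑ p ∈ (⌈z⌉₊).primesBelow, (p : ℝ)⁻¹ ≤ ∑ p ∈ Finset.Icc 2 ⌊z⌋₊, (p : ℝ)⁻¹ :=
    Finset.sum_le_sum_of_subset_of_nonneg h2 (fun p _ _ => by positivity)
  refine h3.trans ?_
  have hfl : 1 ≤ ⌊z⌋₊ := by
    apply Nat.le_floor
    push_cast
    exact hz.le
  have h4 : ∑ p ∈ Finset.Icc 1 ⌊z⌋₊, (p : ℝ)⁻¹ = 1 + ∑ p ∈ Finset.Icc 2 ⌊z⌋₊, (p : ℝ)⁻¹ := by
    rw [← Finset.insert_Icc_succ_left_eq_Icc hfl, Finset.sum_insert (by simp)]
    simp
  have h5 := harmonic_le_one_add_log ⌊z⌋₊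
  rw [harmonic_eq_sum_Icc] at h5
  push_cast at h5
  have h6 : Real.log (⌊z⌋₊ : ℝ) ≤ Real.log z :=
    Real.log_le_log (by exact_mod_cast hfl) (Nat.floor_le hz0.le)
  linarith

private lemma F_le (k n : ℕ) : F k n ≤ n := by
  obtain ⟨A, h1, h2, h3⟩ := exists_maxAdm k (Finset.Icc 1 n)
  unfold F
  rw [← h3]
  refine (Finset.card_le_card h1).trans ?_
  simp

/-- `F k n = c_k n + O(n exp(- sqrt (log n) / 4))`, with an absolute constant: for every `k` there
is a real `c k` with `|F k n - c k * n| ≤ 8 n exp(- sqrt (log n) / 4)` for all `n ≥ 1`. -/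
theorem result : ∃ c : ℕ → ℝ, ∀ k n : ℕ, 1 ≤ n →
    |(F k n : ℝ) - c k * n| ≤ 8 * n * Real.exp (-Real.sqrt (Real.log n) / 4) := by
  choose c hc hC using fun k => AsymptoticConstant.result k
  refine ⟨c, ?_⟩
  intro k n hn
  have hn' : (0 : ℝ) < n := by exact_mod_cast hn
  have hn1 : (1 : ℝ) ≤ n := by exact_mod_cast hn
  have hc0 : 0 ≤ c k := ge_of_tendsto' (hc k) (fun m => by positivity)
  have hc1 : c k ≤ 1 := by
    refine le_of_tendsto' (hc k) (fun m => ?_)
    apply div_le_one_of_le₀ _ (Nat.cast_nonneg m)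
    exact_mod_cast F_le k m
  have hL0 : 0 ≤ Real.log n := Real.log_nonneg hn1
  set r := Real.sqrt (Real.log n) with hr
  have hr0 : 0 ≤ r := Real.sqrt_nonneg _
  have hrL : r * r = Real.log n := Real.mul_self_sqrt hL0
  rcases le_or_gt r 8 with h8 | h8
  · have h1 : |(F k n : ℝ) - c k * n| ≤ n := by
      have h2 : (F k n : ℝ) ≤ n := by exact_mod_cast F_le k n
      have h3 : (0 : ℝ) ≤ F k n := Nat.cast_nonneg _
      have h4 : c k * n ≤ 1 * n := mul_le_mul_of_nonneg_right hc1 hn'.le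
      have h5 : 0 ≤ c k * n := mul_nonneg hc0 hn'.le
      rw [abs_le]
      constructor <;> linarith
    refine h1.trans ?_
    have h2 : (1 / 8 : ℝ) ≤ Real.exp (-r / 4) := by
      have h3 : Real.exp (-2) ≤ Real.exp (-r / 4) := Real.exp_le_exp.2 (by linarith)
      refine le_trans ?_ h3
      rw [Real.exp_neg, ← one_div]
      apply one_div_le_one_div_of_le (Real.exp_pos _)
      have h4 : Real.exp 2 = Real.exp 1 * Real.exp 1 := by rw [← Real.exp_add]; norm_num
      have h5 := Real.exp_one_lt_d9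
      rw [h4]
      nlinarith [Real.exp_pos 1]
    nlinarith
  · set z := Real.exp (r / 4) with hz
    have hz1 : 1 < z := by
      rw [hz]
      exact Real.one_lt_exp_iff.2 (by linarith)
    have hlz : Real.log z = r / 4 := by rw [hz, Real.log_exp]
    set δ := 4 / r with hδ
    have hr' : 0 < r := by linarith
    have hδz : δ * Real.log z = 1 := by
      rw [hlz, hδ]
      field_simp
    have hδ1 : δ ≤ 1 / 2 := by
      rw [hδ, div_le_iff₀ hr']
      linarith
    have hδ0 : 0 ≤ δ := by positivity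
    have hN0 : 0 < ⌈z⌉₊ := Nat.ceil_pos.2 (by linarith)
    have hN : z ≤ (⌈z⌉₊ : ℝ) := Nat.le_ceil z
    have e1 := bound (σ := 1 - δ) (by linarith) (by linarith) k ⌈z⌉₊ n hN0 (by omega)
      (hC k _ hN0).1 (hC k _ hN0).2
    refine e1.trans ?_
    have e2 : (n : ℝ) / (⌈z⌉₊ : ℝ) ≤ n * Real.exp (-r / 4) := by
      have h1 : (n : ℝ) / (⌈z⌉₊ : ℝ) ≤ n / z := by
        apply div_le_div_of_nonneg_left hn'.le (by linarith) hN
      refine h1.trans (le_of_eq ?_)
      rw [hz, neg_div, Real.exp_neg, div_eq_mul_inv]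
    have e3 : PP (1 - δ) ⌈z⌉₊ * QQ (1 - δ) ⌈z⌉₊ ≤ Real.exp (7 / 2 * r) := by
      refine (PQ_le (by linarith) _).trans ?_
      apply Real.exp_le_exp.2
      have h1 := sum_primes hz1 hδz
      rw [hlz] at h1
      have h5 := Real.exp_one_lt_d9
      nlinarith
    have e4 : (n : ℝ) ^ (1 - δ) = n * Real.exp (-(4 * r)) := by
      rw [Real.rpow_def_of_pos hn', ← hrL]
      have h1 : r * r * (1 - δ) = r * r + -(4 * r) := by
        rw [hδ]
        field_simp
        ring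
      rw [h1, Real.exp_add, hrL, Real.exp_log hn']
    have e5 : 2 * (n : ℝ) ^ (1 - δ) * (PP (1 - δ) ⌈z⌉₊ * QQ (1 - δ) ⌈z⌉₊) ≤
        2 * (n * Real.exp (-r / 4)) := by
      rw [e4]
      calc 2 * (n * Real.exp (-(4 * r))) * (PP (1 - δ) ⌈z⌉₊ * QQ (1 - δ) ⌈z⌉₊) ≤
          2 * (n * Real.exp (-(4 * r))) * Real.exp (7 / 2 * r) :=
            mul_le_mul_of_nonneg_left e3 (by positivity)
        _ = 2 * (n * Real.exp (-(4 * r) + 7 / 2 * r)) := by rw [Real.exp_add]; ring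
        _ ≤ 2 * (n * Real.exp (-r / 4)) := by
            have h1 : Real.exp (-(4 * r) + 7 / 2 * r) ≤ Real.exp (-r / 4) :=
              Real.exp_le_exp.2 (by linarith)
            have h2 := mul_le_mul_of_nonneg_left h1 hn'.le
            linarith
    have e6 : 0 ≤ n * Real.exp (-r / 4) := by positivity
    calc (n : ℝ) / (⌈z⌉₊ : ℝ) + 2 * (n : ℝ) ^ (1 - δ) * (PP (1 - δ) ⌈z⌉₊ * QQ (1 - δ) ⌈z⌉₊) ≤
        n * Real.exp (-r / 4) + 2 * (n * Real.exp (-r / 4)) := add_le_add e2 e5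
      _ ≤ 8 * n * Real.exp (-r / 4) := by linarith

end Pool.Agent.Results.MP_573265_nt.ErrorTerm
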