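import Pool.Agent.Results.MP_573265_nt.AsymptoticConstant
import Pool.Agent.Lib.MP_573265_nt.H31Upper
import Pool.Agent.Lib.MP_573265_nt.H31Low2

open Filter Topology

namespace Pool.Agent.Results.MP_573265_nt.ThreeDivisors

open Pool.Agent.Results.MP_573265_nt.AsymptoticConstant

/-- For `k = 3`: `F 3 n / n` tends to a constant `c` with `|c - 0.8112| ≤ 0.0014`. -/
theorem result : ∃ c : ℝ, Tendsto (fun n : ℕ => (F 3 n : ℝ) / n) atTop (𝓝 c) ∧
    |c - 8112 / 10000| ≤ 14 / 10000 := by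
  obtain ⟨c, hc, hN⟩ := AsymptoticConstant.result 3
  refine ⟨c, hc, ?_⟩
  have h1 : 8099 / 10000 ≤ c := Pool.Agent.Lib.MP_573265_nt.H31.lower2 hc
  have h2 : c ≤ 8126 / 10000 :=
    ((hN 6 (by norm_num)).1).trans Pool.Agent.Lib.MP_573265_nt.H31.C_le
  rw [abs_le]
  constructor
  · linarith
  · linarith

end Pool.Agent.Results.MP_573265_nt.ThreeDivisors
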